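import Pool.Agent.H42.G4.Cuts4

/-!
# Cuts for P6 and P7, from the finite check
-/

set_option autoImplicit false

namespace Pool.Agent.H21.G4

open Relation Pool.Agent.H13.DA Pool.Agent.H72.G4 Pool.Agent.H55.G4 Pool.Agent.H42.G4

variable {V : Type*} {D : V → V → Prop} {v : V}

/-- names of the six vertices -/
def nm6 (x1 x2 x3 x4 x5 v : V) : ℕ → V
  | 0 => x1
  | 1 => x2
  | 2 => x3
  | 3 => x4
  | 4 => x5
  | _ => v

theorem nm6_inj {x1 x2 x3 x4 x5 v : V} (h12 : x1 ≠ x2) (h13 : x1 ≠ x3) (h14 : x1 ≠ x4)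
    (h15 : x1 ≠ x5) (h1 : x1 ≠ v) (h23 : x2 ≠ x3) (h24 : x2 ≠ x4) (h25 : x2 ≠ x5) (h2 : x2 ≠ v)
    (h34 : x3 ≠ x4) (h35 : x3 ≠ x5) (h3 : x3 ≠ v) (h45 : x4 ≠ x5) (h4 : x4 ≠ v) (h5 : x5 ≠ v) :
    ∀ x y, x < 5 + 1 → y < 5 + 1 → nm6 x1 x2 x3 x4 x5 v x = nm6 x1 x2 x3 x4 x5 v y → x = y := by
  intro x y hx hy h
  interval_cases x <;> interval_cases y <;> simp only [nm6] at h <;>
    first | rfl | exact absurd h ‹_› | exact absurd h.symm ‹_›

theorem chk_P6 : chk [(0,0,0,0),(1,0,0,0),(3,0,0,0),(4,0,0,0),(4,8,0,0)] [St.free 5 26] = true := by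
  decide +kernel

theorem chk_P7 : chk [(0,0,0,0),(0,1,0,0),(0,0,0,0),(4,3,0,0)] [St.free 5 10] = true := by
  decide +kernel

private lemma lt4 {m x : ℕ} (h : m < 16) (hx : m.testBit x = true) : x < 4 := tb_lt (N := 4) h hx
private lemma lt3 {m x : ℕ} (h : m < 8) (hx : m.testBit x = true) : x < 3 := tb_lt (N := 3) h hx
private lemma lt2 {m x : ℕ} (h : m < 4) (hx : m.testBit x = true) : x < 2 := tb_lt (N := 2) h hx
private lemma lt1 {m x : ℕ} (h : m < 2) (hx : m.testBit x = true) : x < 1 := tb_lt (N := 1) h hx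
private lemma lt0 {x : ℕ} {p : Prop} (hx : (0 : ℕ).testBit x = true) : p := by simp at hx

/-- cuts for P6 -/
theorem cuts_P6 {x1 x2 x3 x4 x5 : V} (h12 : x1 ≠ x2) (h13 : x1 ≠ x3) (h14 : x1 ≠ x4)
    (h15 : x1 ≠ x5) (h1 : x1 ≠ v) (h23 : x2 ≠ x3) (h24 : x2 ≠ x4) (h25 : x2 ≠ x5) (h2 : x2 ≠ v)
    (h34 : x3 ≠ x4) (h35 : x3 ≠ x5) (h3 : x3 ≠ v) (h45 : x4 ≠ x5) (h4 : x4 ≠ v) (h5 : x5 ≠ v)
    (hin : ∀ x, D x v → x = x1 ∨ x = x3) (hout : ∀ x, D v x → x = x2 ∨ x = x4 ∨ x = x5)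
    (O : Fin 3 → V → V → Prop) (hO : ∀ i, STO (O i)) (e12 : Ex O x1 x2) (e13 : Ex O x1 x3)
    (e23 : Ex O x2 x3) (e34 : Ex O x3 x4) (e35 : Ex O x3 x5) (e54 : Ex O x5 x4) :
    Cuts D v O := by
  obtain ⟨Q, q1, q2, q3⟩ := conf [(0,0,0,0),(1,0,0,0),(3,0,0,0),(4,0,0,0),(4,8,0,0)]
    [St.free 5 26] chk_P6 (nm6 x1 x2 x3 x4 x5 v)
    (nm6_inj h12 h13 h14 h15 h1 h23 h24 h25 h2 h34 h35 h3 h45 h4 h5) trivial O hO (by
      refine ⟨fun x hx => lt0 hx, fun x hx => lt0 hx, fun x hx => lt0 hx, fun x hx => lt0 hx,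
        fun x hx => ?_, fun x hx => lt0 hx, fun x hx => lt0 hx, fun x hx => lt0 hx,
        fun x hx => ?_, fun x hx => lt0 hx, fun x hx => lt0 hx, fun x hx => lt0 hx,
        fun x hx => ?_, fun x hx => lt0 hx, fun x hx => lt0 hx, fun x hx => lt0 hx,
        fun x hx => ?_, fun x hx => ?_, fun x hx => lt0 hx, fun x hx => lt0 hx, trivial⟩
      · have h := lt1 (by norm_num) hx
        interval_cases x
        exact ⟨by norm_num, e12⟩
      · have h := lt2 (by norm_num) hx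
        interval_cases x
        · exact ⟨by norm_num, e13⟩
        · exact ⟨by norm_num, e23⟩
      · have h := lt3 (by norm_num) hx
        interval_cases x
        · exact absurd hx (by decide)
        · exact absurd hx (by decide)
        · exact ⟨by norm_num, e34⟩
      · have h := lt3 (by norm_num) hx
        interval_cases x
        · exact absurd hx (by decide)
        · exact absurd hx (by decide)
        · exact ⟨by norm_num, e35⟩
      · have h := lt4 (by norm_num) hx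
        interval_cases x
        · exact absurd hx (by decide)
        · exact absurd hx (by decide)
        · exact absurd hx (by decide)
        · exact ⟨by norm_num, e54⟩)
  obtain ⟨q3, q4, -⟩ := q3
  refine cuts_of q1 ?_ ?_ ?_
  · intro i x y hx hy
    refine q2 i x y fun k hk1 hk2 => ?_
    have : k = 5 := by
      have e1 : 5 ≤ k := hk1
      have e2 : k < 5 + 1 := hk2
      omega
    subst this
    exact ⟨hx, hy⟩
  · intro x hx
    rcases hin x hx with rfl | rfl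
    · exact q3 0 (by decide) (by decide)
    · exact q3 2 (by decide) (by decide)
  · intro x hx
    rcases hout x hx with rfl | rfl | rfl
    · exact q4 1 (by decide) (by decide)
    · exact q4 3 (by decide) (by decide)
    · exact q4 4 (by decide) (by decide)

/-- cuts for P7 -/
theorem cuts_P7 {x1 x2 x3 x4 : V} (h12 : x1 ≠ x2) (h13 : x1 ≠ x3) (h14 : x1 ≠ x4) (h1 : x1 ≠ v)
    (h23 : x2 ≠ x3) (h24 : x2 ≠ x4) (h2 : x2 ≠ v) (h34 : x3 ≠ x4) (h3 : x3 ≠ v) (h4 : x4 ≠ v)
    (hin : ∀ x, D x v → x = x1 ∨ x = x3) (hout : ∀ x, D v x → x = x2 ∨ x = x4)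
    (O : Fin 3 → V → V → Prop) (hO : ∀ i, STO (O i)) (e34 : Ex O x3 x4) (e21 : Ex O x2 x1)
    (e41 : Ex O x4 x1) (e42 : Ex O x4 x2) : Cuts D v O := by
  obtain ⟨Q, q1, q2, q3⟩ := conf [(0,0,0,0),(0,1,0,0),(0,0,0,0),(4,3,0,0)] [St.free 5 10] chk_P7
    (nm x1 x2 x3 x4 v) (nm_inj h12 h13 h14 h1 h23 h24 h2 h34 h3 h4) trivial O hO (by
      refine ⟨fun x hx => lt0 hx, fun x hx => lt0 hx, fun x hx => lt0 hx, fun x hx => lt0 hx,
        fun x hx => lt0 hx, fun x hx => ?_, fun x hx => lt0 hx, fun x hx => lt0 hx,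
        fun x hx => lt0 hx, fun x hx => lt0 hx, fun x hx => lt0 hx, fun x hx => lt0 hx,
        fun x hx => ?_, fun x hx => ?_, fun x hx => lt0 hx, fun x hx => lt0 hx, trivial⟩
      · have h := lt1 (by norm_num) hx
        interval_cases x
        exact ⟨by norm_num, e21⟩
      · have h := lt3 (by norm_num) hx
        interval_cases x
        · exact absurd hx (by decide)
        · exact absurd hx (by decide)
        · exact ⟨by norm_num, e34⟩
      · have h := lt2 (by norm_num) hx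
        interval_cases x
        · exact ⟨by norm_num, e41⟩
        · exact ⟨by norm_num, e42⟩)
  obtain ⟨q3, q4, -⟩ := q3
  refine cuts_of q1 ?_ ?_ ?_
  · intro i x y hx hy
    refine q2 i x y fun k hk1 hk2 => ?_
    have : k = 4 := by
      have e1 : 4 ≤ k := hk1
      have e2 : k < 4 + 1 := hk2
      omega
    subst this
    exact ⟨hx, hy⟩
  · intro x hx
    rcases hin x hx with rfl | rfl
    · exact q3 0 (by decide) (by decide)
    · exact q3 2 (by decide) (by decide)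
  · intro x hx
    rcases hout x hx with rfl | rfl
    · exact q4 1 (by decide) (by decide)
    · exact q4 3 (by decide) (by decide)

end Pool.Agent.H21.G4
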