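import Pool.Agent.H21.G4.Tools
import Pool.Agent.H21.G4.Cuts67

/-!
# Configuration P6

Link of `v` in cyclic order: `x1` in, `x2` out, quad, `x3` in, `x4` out, `x5` out, quad; ring arcs
`x1 → x2`, `x3 → x4`, `x5 → x4`.  New arcs `x1 → x3`, `x2 → x3`, `x3 → x5`.
-/

set_option autoImplicit false

namespace Pool.Agent.H21.G4

open Relation Pool.Agent.H13.DA Pool.Agent.H72.G4

variable {V : Type*} [DecidableEq V] {T : Finset (V × V × V)} {D : V → V → Prop} {a b c : V}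

/-- the new arcs -/
def A6 (x1 x2 x3 x5 : V) (x y : V) : Prop :=
  (x = x1 ∧ y = x3) ∨ (x = x2 ∧ y = x3) ∨ (x = x3 ∧ y = x5)

theorem red_P6 (hF : FanT V) (hM : MCw T D a b c) (hT : Ts T D a b c)
    {v x1 x2 x3 x4 x5 : V} (hv : ¬ Tr a b c v) (hg : Good T D v)
    (hN : ∀ u, Ar D v u ↔ u = x1 ∨ u = x2 ∨ u = x3 ∨ u = x4 ∨ u = x5)
    (a1 : D x1 v) (a2 : D v x2) (a3 : D x3 v) (a4 : D v x4) (a5 : D v x5)
    (r1 : D x1 x2) (r2 : D x3 x4) (r3 : D x5 x4)
    (n13 : ¬ Ar D x1 x3) (n14 : ¬ Ar D x1 x4) (n15 : ¬ Ar D x1 x5) (n23 : ¬ Ar D x2 x3)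
    (n24 : ¬ Ar D x2 x4) (n25 : ¬ Ar D x2 x5) (n35 : ¬ Ar D x3 x5)
    (hq : ∀ d, ¬ Re D d → Adj T d v → Adj T d x3 → ¬ Adj T d x5) : False := by
  have as := hT.pl.asymm
  have irr : ∀ x, ¬ D x x := fun x h => as x x h h
  have nar : ∀ x, ¬ Ar D x x := by
    rintro x (h | h) <;> exact irr x h
  have ne_io : ∀ {x y}, D x v → D v y → x ≠ y := by
    rintro x y h1 h2 rfl
    exact as _ _ h1 h2
  have e12 : x1 ≠ x2 := ne_io a1 a2
  have e14 : x1 ≠ x4 := ne_io a1 a4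
  have e15 : x1 ≠ x5 := ne_io a1 a5
  have e32 : x3 ≠ x2 := ne_io a3 a2
  have e34 : x3 ≠ x4 := ne_io a3 a4
  have e35 : x3 ≠ x5 := ne_io a3 a5
  have e13 : x1 ≠ x3 := by
    rintro rfl
    exact n14 (Or.inl r2)
  have e24 : x2 ≠ x4 := by
    rintro rfl
    exact n14 (Or.inl r1)
  have e25 : x2 ≠ x5 := by
    rintro rfl
    exact n15 (Or.inl r1)
  have e45 : x4 ≠ x5 := by
    rintro rfl
    exact irr _ r3
  have m1 : Ar D v x1 := Or.inr a1
  have m2 : Ar D v x2 := Or.inl a2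
  have m3 : Ar D v x3 := Or.inr a3
  have m5 : Ar D v x5 := Or.inl a5
  have hvr : Re D v := ⟨_, m2⟩
  refine del_fill hF hM hT (v := v) (p := x3) (A := A6 x1 x2 x3 x5) hv hvr m3 ?_ ?_ ?_ ?_
  · rintro x y (⟨rfl, rfl⟩ | ⟨rfl, rfl⟩ | ⟨rfl, rfl⟩)
    · exact Or.inr ⟨rfl, m1, e13⟩
    · exact Or.inr ⟨rfl, m2, e32.symm⟩
    · exact Or.inl ⟨rfl, m5, e35.symm⟩
  · refine fil_asymm as ?_ ?_
    · rintro x y (⟨rfl, rfl⟩ | ⟨rfl, rfl⟩ | ⟨rfl, rfl⟩)
      · exact n13
      · exact n23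
      · exact n35
    · rintro x y (⟨rfl, rfl⟩ | ⟨rfl, rfl⟩ | ⟨rfl, rfl⟩) (⟨h1, h2⟩ | ⟨h1, h2⟩ | ⟨h1, h2⟩)
      · exact e13 h2
      · exact e32 h1
      · exact e15 h2
      · exact e13 h1.symm
      · exact e32 h1
      · exact e25 h2
      · exact e15 h1.symm
      · exact e25 h1.symm
      · exact e35 h2
  · refine fil_tri hT.pl.tri ?_
    rintro p q z (⟨rfl, rfl⟩ | ⟨rfl, rfl⟩ | ⟨rfl, rfl⟩) h2 h3
    · -- x1 → x3
      have k3 : D z p ∧ z ≠ v := by
        rcases h3 with h | (⟨_, h⟩ | ⟨_, h⟩ | ⟨_, h⟩)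
        · exact ⟨h.1, h.2.1⟩
        · exact absurd h e13
        · exact absurd h e13
        · exact absurd h e15
      rcases h2 with h | (⟨h, _⟩ | ⟨h, _⟩ | ⟨_, rfl⟩)
      · have := common_nb hT hg m1 m3 e13 n13 k3.2 h.1 k3.1 (fun k => as _ _ k.2 a3)
        rcases (hN z).1 this with rfl | rfl | rfl | rfl | rfl
        · exact irr _ k3.1
        · exact n23 (Or.inr h.1)
        · exact irr _ h.1
        · exact n14 (Or.inr k3.1)
        · exact n35 (Or.inl h.1)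
      · exact e13 h.symm
      · exact e32 h
      · exact n15 (Or.inr k3.1)
    · -- x2 → x3
      have k3 : D z p ∧ z ≠ v := by
        rcases h3 with h | (⟨_, h⟩ | ⟨_, h⟩ | ⟨_, h⟩)
        · exact ⟨h.1, h.2.1⟩
        · exact absurd h.symm e32
        · exact absurd h.symm e32
        · exact absurd h e25
      rcases h2 with h | (⟨h, _⟩ | ⟨h, _⟩ | ⟨_, rfl⟩)
      · have := common_nb hT hg m2 m3 e32.symm n23 k3.2 h.1 k3.1 (fun k => as _ _ k.1 a2)
        rcases (hN z).1 this with rfl | rfl | rfl | rfl | rfl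
        · exact n13 (Or.inr h.1)
        · exact irr _ k3.1
        · exact irr _ h.1
        · exact n24 (Or.inr k3.1)
        · exact n35 (Or.inl h.1)
      · exact e13 h.symm
      · exact e32 h
      · exact n25 (Or.inr k3.1)
    · -- x3 → x5
      have k2 : D q z ∧ z ≠ v := by
        rcases h2 with h | (⟨h, _⟩ | ⟨h, _⟩ | ⟨h, _⟩)
        · exact ⟨h.1, h.2.2⟩
        · exact absurd h.symm e15
        · exact absurd h.symm e25
        · exact absurd h.symm e35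
      rcases h3 with h | (⟨rfl, _⟩ | ⟨rfl, _⟩ | ⟨_, h⟩)
      · have := common_nb' hg m3 m5 e35 n35 k2.2 k2.1 h.1 hq
        rcases (hN z).1 this with rfl | rfl | rfl | rfl | rfl
        · exact n15 (Or.inr k2.1)
        · exact n25 (Or.inr k2.1)
        · exact irr _ h.1
        · exact as _ _ h.1 r2
        · exact irr _ k2.1
      · exact n15 (Or.inr k2.1)
      · exact n25 (Or.inr k2.1)
      · exact e35 h
  · intro O hO hX
    have old : ∀ x y, D x y → x ≠ v → y ≠ v → Ex O x y := fun x y h k1 k2 =>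
      hX x y (Or.inl ⟨h, k1, k2⟩)
    have v1 : x1 ≠ v := by
      rintro rfl
      exact irr _ a1
    have v2 : x2 ≠ v := by
      rintro rfl
      exact irr _ a2
    have v3 : x3 ≠ v := by
      rintro rfl
      exact irr _ a3
    have v4 : x4 ≠ v := by
      rintro rfl
      exact irr _ a4
    have v5 : x5 ≠ v := by
      rintro rfl
      exact irr _ a5
    refine cuts_P6 e12 e13 e14 e15 v1 e32.symm e24 e25 v2 e34 e35 v3 e45 v4 v5 ?_ ?_ O hO
      (old _ _ r1 v1 v2) (hX _ _ (Or.inr (Or.inl ⟨rfl, rfl⟩)))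
      (hX _ _ (Or.inr (Or.inr (Or.inl ⟨rfl, rfl⟩)))) (old _ _ r2 v3 v4)
      (hX _ _ (Or.inr (Or.inr (Or.inr ⟨rfl, rfl⟩)))) (old _ _ r3 v5 v4)
    · intro x hx
      rcases (hN x).1 (Or.inr hx) with rfl | rfl | rfl | rfl | rfl
      · exact Or.inl rfl
      · exact absurd hx (as _ _ a2)
      · exact Or.inr rfl
      · exact absurd hx (as _ _ a4)
      · exact absurd hx (as _ _ a5)
    · intro x hx
      rcases (hN x).1 (Or.inl hx) with rfl | rfl | rfl | rfl | rfl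
      · exact absurd hx (as _ _ a1)
      · exact Or.inl rfl
      · exact absurd hx (as _ _ a3)
      · exact Or.inr (Or.inl rfl)
      · exact Or.inr (Or.inr rfl)

end Pool.Agent.H21.G4
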