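import Pool.Agent.H72.G4.Model

/-!
# Order rows O1, O2, O3: gluing, sources and sinks, contraction

* `insert3` : insert one vertex into three orders above three lower sets.
* `insert_ex` : the same, with exactness of the arcs at the new vertex.
* `glue` : (O1) solving the two sides of a separating set.
* `solv_source`, `solv_sink` : (O2).
* `Ct D y b` : `D` with `y` renamed to `b`; `solv_contract` : (O3).
-/

set_option autoImplicit false

namespace Pool.Agent.H21.G4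

open Pool.Agent.H72.G4

variable {V : Type*}

/-- `D` without the vertex `v` -/
def Del (D : V → V → Prop) (v : V) : V → V → Prop := fun x y => D x y ∧ x ≠ v ∧ y ≠ v

/-- the arcs of `D` inside `S` -/
def On (D : V → V → Prop) (S : V → Prop) : V → V → Prop := fun x y => D x y ∧ S x ∧ S y

/-- `D` with `y` renamed to `b` -/
def Ct (D : V → V → Prop) (y b : V) : V → V → Prop := fun x z =>
  x ≠ y ∧ z ≠ y ∧ x ≠ z ∧ (D x z ∨ (x = b ∧ D y z) ∨ (z = b ∧ D x y))

theorem Ex.congr {O O' : Fin 3 → V → V → Prop} {x y : V}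
    (h : ∀ i, (O' i x y ↔ O i x y) ∧ (O' i y x ↔ O i y x)) (hE : Ex O x y) : Ex O' x y := by
  obtain ⟨i, h1, h2⟩ := hE
  exact ⟨i, (h i).2.2 h1, fun j hj => (h j).1.2 (h2 j hj)⟩

/-- insertion of `v` into three orders -/
theorem insert3 {O : Fin 3 → V → V → Prop} (hO : ∀ i, STO (O i)) (v : V) (P : Fin 3 → V → Prop)
    (hP : ∀ i x y, x ≠ v → y ≠ v → P i y → O i x y → P i x) :
    ∃ O' : Fin 3 → V → V → Prop, (∀ i, STO (O' i)) ∧
      (∀ i x y, x ≠ v → y ≠ v → (O' i x y ↔ O i x y)) ∧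
      ∀ i x, x ≠ v → (O' i x v ↔ P i x) ∧ (O' i v x ↔ ¬ P i x) := by
  choose t h1 h2 h3 h4 using fun i => insert_at (hO i) v (P i) (hP i)
  exact ⟨t, h1, h2, fun i x hx => ⟨h3 i x hx, h4 i x hx⟩⟩

/-- insertion of a vertex `v`, not in `S`, with exactness of all arcs at `v`:
every in-neighbour is in exactly two of the lower sets, every out-neighbour in exactly one -/
theorem insert_ex {D : V → V → Prop} {S : V → Prop} {O : Fin 3 → V → V → Prop} {v : V}
    (hO : ∀ i, STO (O i)) (hv : ¬ D v v) (hE : ∀ x y, Del D v x y → Ex O x y) (hS : ¬ S v)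
    (P : Fin 3 → V → Prop) (hP : ∀ i x y, x ≠ v → y ≠ v → P i y → O i x y → P i x)
    (hin : ∀ x, D x v → ∃ i, ¬ P i x ∧ ∀ j, j ≠ i → P j x)
    (hout : ∀ x, D v x → ∃ i, P i x ∧ ∀ j, j ≠ i → ¬ P j x) :
    ∃ O' : Fin 3 → V → V → Prop, (∀ i, STO (O' i)) ∧ (∀ x y, D x y → Ex O' x y) ∧
      ∀ i x y, S x → S y → (O' i x y ↔ O i x y) := by
  obtain ⟨O', h1, h2, h3⟩ := insert3 hO v P hP
  refine ⟨O', h1, ?_, ?_⟩
  · intro x y hxy
    by_cases hx : x = v
    · subst hx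
      have hy : y ≠ x := by
        rintro rfl
        exact hv hxy
      obtain ⟨i, h4, h5⟩ := hout y hxy
      exact ⟨i, (h3 i y hy).1.2 h4, fun j hj => (h3 j y hy).2.2 (h5 j hj)⟩
    · by_cases hy : y = v
      · subst hy
        obtain ⟨i, h4, h5⟩ := hin x hxy
        exact ⟨i, (h3 i x hx).2.2 h4, fun j hj => (h3 j x hx).1.2 (h5 j hj)⟩
      · exact Ex.congr (fun i => ⟨h2 i x y hx hy, h2 i y x hy hx⟩) (hE x y ⟨hxy, hx, hy⟩)
  · intro i x y hx hy
    refine h2 i x y ?_ ?_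
    · rintro rfl
      exact hS hx
    · rintro rfl
      exact hS hy

/-- **O1** glue: `S ⊆ S1`, `S' ⊆ S1`, `S1 ∩ S2 ⊆ S'`, every arc is inside `S1` or inside `S2` -/
theorem glue {D : V → V → Prop} {S S1 S2 S' : V → Prop}
    (hcov : ∀ x y, D x y → (S1 x ∧ S1 y) ∨ (S2 x ∧ S2 y)) (hS : ∀ x, S x → S1 x)
    (hS' : ∀ x, S' x → S1 x) (hint : ∀ x, S1 x → S2 x → S' x)
    (h1 : Solv (On D S1) S) (h2 : Solv (On D S2) S') : Solv D S := by
  intro O hO hE
  obtain ⟨O1, a1, a2, a3⟩ := h1 O hO (fun x y hx hy h => hE x y hx hy h.1)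
  obtain ⟨O2, b1, b2, b3⟩ := h2 O1 a1
    (fun x y hx hy h => a2 x y ⟨h.1, hS' x hx, hS' y hy⟩)
  choose t c1 c2 c3 using fun i => amal (a1 i) (b1 i) S1 S2
    (fun x y hx hx' hy hy' => (b3 i x y (hint x hx hx') (hint y hy hy')).symm)
  refine ⟨t, c1, ?_, ?_⟩
  · intro x y h
    rcases hcov x y h with ⟨hx, hy⟩ | ⟨hx, hy⟩
    · exact Ex.congr (fun i => ⟨c2 i x y hx hy, c2 i y x hy hx⟩) (a2 x y ⟨h, hx, hy⟩)
    · exact Ex.congr (fun i => ⟨c3 i x y hx hy, c3 i y x hy hx⟩) (b2 x y ⟨h, hx, hy⟩)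
  · intro i x y hx hy
    exact (c2 i x y (hS x hx) (hS y hy)).trans (a3 i x y hx hy)

/-- **O2**, a source outside `S` -/
theorem solv_source {D : V → V → Prop} {S : V → Prop} {v : V} (hS : ¬ S v)
    (hv : ∀ x, ¬ D x v) (h : Solv (Del D v) S) : Solv D S := by
  intro O hO hE
  obtain ⟨O1, a1, a2, a3⟩ := h O hO (fun x y hx hy h => hE x y hx hy h.1)
  obtain ⟨O2, b1, b2, b3⟩ := insert_ex a1 (hv v) a2 hS (fun i _ => i = 0)
    (fun _ _ _ _ _ h1 _ => h1) (fun x hx => absurd hx (hv x)) (fun x _ => ⟨0, rfl, fun _ hj => hj⟩)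
  exact ⟨O2, b1, b2, fun i x y hx hy => (b3 i x y hx hy).trans (a3 i x y hx hy)⟩

/-- **O2**, a sink outside `S` -/
theorem solv_sink {D : V → V → Prop} {S : V → Prop} {v : V} (hS : ¬ S v)
    (hv : ∀ x, ¬ D v x) (h : Solv (Del D v) S) : Solv D S := by
  intro O hO hE
  obtain ⟨O1, a1, a2, a3⟩ := h O hO (fun x y hx hy h => hE x y hx hy h.1)
  obtain ⟨O2, b1, b2, b3⟩ := insert_ex a1 (hv v) a2 hS (fun i _ => i ≠ 0)
    (fun _ _ _ _ _ h1 _ => h1) (fun x _ => ⟨0, fun h => h rfl, fun _ hj => hj⟩)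
    (fun x hx => absurd hx (hv x))
  exact ⟨O2, b1, b2, fun i x y hx hy => (b3 i x y hx hy).trans (a3 i x y hx hy)⟩

/-- **O3** contraction of `y` into `b`; the arc `yb` (if any) may have any direction.  The last
hypothesis is only about arcs from `y` to `S` when `b` is in `S`. -/
theorem solv_contract {D : V → V → Prop} {S : V → Prop} {y b : V} (hyb : y ≠ b) (hy : ¬ S y)
    (has : ∀ x z, D x z → ¬ D z x)
    (hS : ∀ z, S b → S z → z ≠ b → (D y z → D b z) ∧ (D z y → D z b))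
    (h : Solv (Ct D y b) S) : Solv D S := by
  classical
  intro O hO hE
  obtain ⟨O1, a1, a2, a3⟩ := h O hO (by
    rintro x z hx hz ⟨h1, h2, h3, h4 | ⟨rfl, h4⟩ | ⟨rfl, h4⟩⟩
    · exact hE x z hx hz h4
    · exact hE x z hx hz ((hS z hx hz (fun e => h3 e.symm)).1 h4)
    · exact hE x z hx hz ((hS x hz hx h3).2 h4))
  have hirr : ∀ x, ¬ D x x := fun x hx => has x x hx hx
  obtain ⟨O2, b1, b2, b3⟩ := insert_ex (D := D) (S := S) (v := y) a1 (hirr y)
    (by
      rintro x z ⟨h1, h2, h3⟩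
      refine a2 x z ⟨h2, h3, ?_, Or.inl h1⟩
      rintro rfl
      exact hirr x h1) hy
    (fun i x => O1 i x b ∨ (x = b ∧ (if D y b then i = 0 else i ≠ 0)))
    (by
      rintro i x z _ _ (h1 | ⟨rfl, _⟩) h3
      · exact Or.inl ((a1 i).tr _ _ _ h3 h1)
      · exact Or.inl h3)
    (by
      intro x hx
      by_cases hxb : x = b
      · subst hxb
        have h1 : ¬ D y x := has x y hx
        refine ⟨0, ?_, ?_⟩
        · rintro (h2 | ⟨_, h2⟩)
          · exact (a1 0).irr x h2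
          · rw [if_neg h1] at h2
            exact h2 rfl
        · intro j hj
          refine Or.inr ⟨rfl, ?_⟩
          rw [if_neg h1]
          exact hj
      · have hxy : x ≠ y := by
          rintro rfl
          exact hirr x hx
        obtain ⟨i, h1, h2⟩ := a2 x b ⟨hxy, hyb.symm, hxb, Or.inr (Or.inr ⟨rfl, hx⟩)⟩
        refine ⟨i, ?_, fun j hj => Or.inl (h2 j hj)⟩
        rintro (h3 | ⟨h3, _⟩)
        · exact (a1 i).asymm h1 h3
        · exact hxb h3)
    (by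
      intro x hx
      by_cases hxb : x = b
      · subst hxb
        refine ⟨0, Or.inr ⟨rfl, by rw [if_pos hx]⟩, ?_⟩
        rintro j hj (h2 | ⟨_, h2⟩)
        · exact (a1 j).irr x h2
        · rw [if_pos hx] at h2
          exact hj h2
      · have hxy : x ≠ y := by
          rintro rfl
          exact hirr x hx
        obtain ⟨i, h1, h2⟩ := a2 b x ⟨hyb.symm, hxy, fun e => hxb e.symm, Or.inr (Or.inl ⟨rfl, hx⟩)⟩
        refine ⟨i, Or.inl h1, ?_⟩
        rintro j hj (h3 | ⟨h3, _⟩)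
        · exact (a1 j).asymm (h2 j hj) h3
        · exact hxb h3)
  exact ⟨O2, b1, b2, fun i x z hx hz => (b3 i x z hx hz).trans (a3 i x z hx hz)⟩

end Pool.Agent.H21.G4
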