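import Pool.Agent.H21.G4.P6
import Pool.Agent.H13.G4.FanT

/-!
# Configuration P7

Link of `v` in cyclic order: `x1` in, quad, `x2` out, quad, `x3` in, `x4` out, quad; ring arc
`x3 → x4`.  New arcs `x2 → x1`, `x4 → x1`, `x4 → x2`.
-/

set_option autoImplicit false

namespace Pool.Agent.H21.G4

open Relation Pool.Agent.H13.DA Pool.Agent.H72.G4 Pool.Agent.H13.G4

variable {V : Type*} [DecidableEq V] {T : Finset (V × V × V)} {D : V → V → Prop} {a b c : V}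

/-- the new arcs -/
def A7 (x1 x2 x4 : V) (x y : V) : Prop :=
  (x = x2 ∧ y = x1) ∨ (x = x4 ∧ y = x1) ∨ (x = x4 ∧ y = x2)

/-- contract the dummy `d` into `x1`, then `v` into `x4` -/
theorem two_fans [Infinite V] (hT : Ts T D a b c) {v x1 x4 d : V} (hv : ¬ Tr a b c v)
    (m1 : Ar D v x1) (m4 : Ar D v x4) (e14 : x1 ≠ x4) (hd : ¬ Re D d) (hdv : Adj T d v)
    (hd1 : Adj T d x1) (hd4 : ¬ Adj T d x4) :
    ∃ T' : Finset (V × V × V), Disc T' ∧ IsBd T' [a, b, c] ∧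
      (∀ x y, Adj T x y → Re D x → Re D y → x ≠ v → y ≠ v → Adj T' x y) ∧
      (∀ y, Adj T d y → Re D y → y ≠ x1 → y ≠ v → Adj T' x1 y) ∧
      ∀ y, Ar D v y → y ≠ x4 → Adj T' x4 y := by
  have cx := hT.pl.disc.cx
  have adv : Adj T v d := hdv.symm
  have hvr : Re D v := ⟨_, m1⟩
  have rv : ∀ x, Re D x → x ≠ d := by
    rintro x hx rfl
    exact hd hx
  have tr_re : ∀ x, Tr a b c x → Re D x := by
    obtain ⟨o1, o2, o3⟩ := hT.out
    rintro x (rfl | rfl | rfl)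
    · exact ⟨_, o1⟩
    · exact ⟨_, o2⟩
    · exact ⟨_, o3⟩
  have hdl : d ∉ [a, b, c] := by
    intro h
    apply hd
    apply tr_re
    simpa [Tr] using h
  have hvl : v ∉ [a, b, c] := by
    intro h
    apply hv
    simpa [Tr] using h
  have v1 : v ≠ x1 := adj_ne cx (hT.pl.ar_adj m1)
  obtain ⟨T1, b1, b2, b3, b4, b5, _⟩ := fan_disc hT.pl.disc hT.pl.bd hdl hd1 (by
    intro q h1 h2
    rcases hT.fc d x1 q hd1 h2 h1.symm with h | ⟨h, _⟩
    · exact h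
    · exact absurd (tr_re _ h) hd)
  have k4 : Adj T1 v x4 :=
    (b4 _ _).2 ⟨rv v hvr, rv x4 ⟨v, Or.symm m4⟩, Or.inl (hT.pl.ar_adj m4)⟩
  have nbv : ∀ q, Adj T1 v q → Adj T v q ∧ q ≠ d := by
    intro q hq
    obtain ⟨_, h1, h2 | ⟨h2, _⟩ | ⟨rfl, _⟩⟩ := (b4 _ _).1 hq
    · exact ⟨h2, h1⟩
    · exact absurd h2 v1
    · exact ⟨hT.pl.ar_adj m1, h1⟩
  obtain ⟨T2, c1, c2, c3, c4, _, _⟩ := fan_disc b1 (b2 _ hT.pl.bd) hvl k4 (by
    intro q h1 h2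
    obtain ⟨g1, g2⟩ := nbv q h1
    obtain ⟨_, _, g3 | ⟨g3, _⟩ | ⟨_, _, g3⟩⟩ := (b4 _ _).1 h2
    · have f := hT.fc v x4 q (hT.pl.ar_adj m4) g3 g1.symm
      have w1 := rv v hvr
      have w4 := rv x4 ⟨v, Or.symm m4⟩
      rcases f with (f | f) | ⟨f, _⟩
      · exact Or.inl (b5 _ _ _ f w1 w4 g2)
      · exact Or.inr (b5 _ _ _ f w1 g2 w4)
      · exact absurd f hv
    · exact absurd g3.symm e14
    · exact absurd g3 hd4)
  have up : ∀ x y, Adj T x y → x ≠ d → y ≠ d → Adj T1 x y := fun x y h h1 h2 =>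
    (b4 x y).2 ⟨h1, h2, Or.inl h⟩
  refine ⟨T2, c1, c2 _ (b2 _ hT.pl.bd), ?_, ?_, ?_⟩
  · intro x y h hx hy h1 h2
    exact (c4 x y).2 ⟨h1, h2, Or.inl (up x y h (rv x hx) (rv y hy))⟩
  · intro y hy hyr hy1 hyv
    refine (c4 x1 y).2 ⟨v1.symm, hyv, Or.inl ?_⟩
    exact (b4 x1 y).2 ⟨rv x1 ⟨v, Or.symm m1⟩, rv y hyr, Or.inr (Or.inl ⟨rfl, hy1, hy⟩)⟩
  · intro y hy hy4
    have v4 : v ≠ x4 := adj_ne cx (hT.pl.ar_adj m4)
    have vy : v ≠ y := adj_ne cx (hT.pl.ar_adj hy)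
    refine (c4 x4 y).2 ⟨v4.symm, vy.symm, Or.inr (Or.inl ⟨rfl, hy4, ?_⟩)⟩
    exact up v y (hT.pl.ar_adj hy) (rv v hvr) (rv y ⟨v, Or.symm hy⟩)

theorem red_P7 [Infinite V] (hM : MCw T D a b c) (hT : Ts T D a b c)
    {v x1 x2 x3 x4 d : V} (hv : ¬ Tr a b c v) (hg : Good T D v)
    (hN : ∀ u, Ar D v u ↔ u = x1 ∨ u = x2 ∨ u = x3 ∨ u = x4)
    (a1 : D x1 v) (a2 : D v x2) (a3 : D x3 v) (a4 : D v x4) (r : D x3 x4)
    (n12 : ¬ Ar D x1 x2) (n13 : ¬ Ar D x1 x3) (n14 : ¬ Ar D x1 x4) (n23 : ¬ Ar D x2 x3)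
    (n24 : ¬ Ar D x2 x4) (e24 : x2 ≠ x4)
    (hd : ¬ Re D d) (hdv : Adj T d v) (hd1 : Adj T d x1) (hd2 : Adj T d x2) : False := by
  have as := hT.pl.asymm
  have cx := hT.pl.disc.cx
  have irr : ∀ x, ¬ D x x := fun x h => as x x h h
  have ne_io : ∀ {x y}, D x v → D v y → x ≠ y := by
    rintro x y h1 h2 rfl
    exact as _ _ h1 h2
  have e12 : x1 ≠ x2 := ne_io a1 a2
  have e14 : x1 ≠ x4 := ne_io a1 a4
  have e32 : x3 ≠ x2 := ne_io a3 a2
  have e34 : x3 ≠ x4 := ne_io a3 a4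
  have e13 : x1 ≠ x3 := by
    rintro rfl
    exact n14 (Or.inl r)
  have m1 : Ar D v x1 := Or.inr a1
  have m2 : Ar D v x2 := Or.inl a2
  have m3 : Ar D v x3 := Or.inr a3
  have m4 : Ar D v x4 := Or.inl a4
  have v1 : x1 ≠ v := by
    rintro rfl
    exact irr _ a1
  have v2 : x2 ≠ v := by
    rintro rfl
    exact irr _ a2
  have v3 : x3 ≠ v := by
    rintro rfl
    exact irr _ a3
  have v4 : x4 ≠ v := by
    rintro rfl
    exact irr _ a4
  have hvr : Re D v := ⟨_, m2⟩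
  have hd4 : ¬ Adj T d x4 := fun h => e24 (dummy_out hT hd hdv hd2 h a2 a4)
  have q1 : Re D x1 := ⟨v, Or.symm m1⟩
  have q2 : Re D x2 := ⟨v, Or.symm m2⟩
  have q4 : Re D x4 := ⟨v, Or.symm m4⟩
  obtain ⟨T', d1, d2, d3, d4, d5⟩ := two_fans hT hv m1 m4 e14 hd hdv hd1 hd4
  refine del_fill_gen hM (v := v) (A := A7 x1 x2 x4) (T' := T') hv hvr
    ⟨d1, d2, ?_, ?_, ?_⟩ ?_ ?_
  · rintro x y (h | ⟨rfl, rfl⟩ | ⟨rfl, rfl⟩ | ⟨rfl, rfl⟩)
    · exact d3 x y (hT.pl.adj _ _ h.1) ⟨y, Or.inl h.1⟩ ⟨x, Or.inr h.1⟩ h.2.1 h.2.2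
    · exact (d4 _ hd2 q2 e12.symm v2).symm
    · exact d5 _ m1 e14
    · exact d5 _ m2 e24
  · refine fil_asymm as ?_ ?_
    · rintro x y (⟨rfl, rfl⟩ | ⟨rfl, rfl⟩ | ⟨rfl, rfl⟩)
      · exact fun h => n12 (Or.symm h)
      · exact fun h => n14 (Or.symm h)
      · exact fun h => n24 (Or.symm h)
    · rintro x y (⟨rfl, rfl⟩ | ⟨rfl, rfl⟩ | ⟨rfl, rfl⟩) (⟨h1, h2⟩ | ⟨h1, h2⟩ | ⟨h1, h2⟩)
      · exact e12 h1
      · exact e14 h1
      · exact e14 h1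
      · exact e12 h1
      · exact e14 h1
      · exact e14 h1
      · exact e14 h2.symm
      · exact e24 h1
      · exact e24 h1
  · refine fil_tri hT.pl.tri ?_
    rintro p q z (⟨rfl, rfl⟩ | ⟨rfl, rfl⟩ | ⟨rfl, rfl⟩) h2 h3
    · -- x2 → x1
      have k2 : D q z ∧ z ≠ v := by
        rcases h2 with h | (⟨h, _⟩ | ⟨h, _⟩ | ⟨h, _⟩)
        · exact ⟨h.1, h.2.2⟩
        · exact absurd h e12
        · exact absurd h e14
        · exact absurd h e14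
      rcases h3 with h | (⟨_, h⟩ | ⟨_, h⟩ | ⟨rfl, _⟩)
      · have := common_nb hT hg m2 m1 e12.symm (fun k => n12 (Or.symm k)) k2.2 k2.1 h.1
          (fun k => as _ _ k.1 a2)
        rcases (hN z).1 this with rfl | rfl | rfl | rfl
        · exact irr _ k2.1
        · exact irr _ h.1
        · exact n13 (Or.inl k2.1)
        · exact n14 (Or.inl k2.1)
      · exact e12 h.symm
      · exact e12 h.symm
      · exact n14 (Or.inl k2.1)
    · -- x4 → x1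
      have k2 : D q z ∧ z ≠ v := by
        rcases h2 with h | (⟨h, _⟩ | ⟨h, _⟩ | ⟨h, _⟩)
        · exact ⟨h.1, h.2.2⟩
        · exact absurd h e12
        · exact absurd h e14
        · exact absurd h e14
      rcases h3 with h | (⟨_, h⟩ | ⟨_, h⟩ | ⟨_, h⟩)
      · have := common_nb hT hg m4 m1 e14.symm (fun k => n14 (Or.symm k)) k2.2 k2.1 h.1
          (fun k => as _ _ k.1 a4)
        rcases (hN z).1 this with rfl | rfl | rfl | rfl
        · exact irr _ k2.1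
        · exact n12 (Or.inl k2.1)
        · exact n13 (Or.inl k2.1)
        · exact n14 (Or.inl k2.1)
      · exact e14 h.symm
      · exact e14 h.symm
      · exact e24 h.symm
    · -- x4 → x2
      have k3 : D z p ∧ z ≠ v := by
        rcases h3 with h | (⟨_, h⟩ | ⟨_, h⟩ | ⟨_, h⟩)
        · exact ⟨h.1, h.2.1⟩
        · exact absurd h.symm e14
        · exact absurd h.symm e14
        · exact absurd h.symm e24
      rcases h2 with h | (⟨_, rfl⟩ | ⟨h, _⟩ | ⟨h, _⟩)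
      · have := common_nb hT hg m4 m2 e24.symm (fun k => n24 (Or.symm k)) k3.2 h.1 k3.1
          (fun k => as _ _ k.1 a4)
        rcases (hN z).1 this with rfl | rfl | rfl | rfl
        · exact n12 (Or.inr h.1)
        · exact irr _ h.1
        · exact n23 (Or.inl h.1)
        · exact irr _ k3.1
      · exact n14 (Or.inl k3.1)
      · exact e24 h
      · exact e24 h
  · rintro x y (⟨rfl, rfl⟩ | ⟨rfl, rfl⟩ | ⟨rfl, rfl⟩)
    · exact ⟨q2, q1, v2, v1⟩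
    · exact ⟨q4, q1, v4, v1⟩
    · exact ⟨q4, q2, v4, v2⟩
  · intro O hO hX
    refine cuts_P7 e12 e13 e14 v1 e32.symm e24 v2 e34 v3 v4 ?_ ?_ O hO
      (hX _ _ (Or.inl ⟨r, v3, v4⟩))
      (hX _ _ (Or.inr (Or.inl ⟨rfl, rfl⟩)))
      (hX _ _ (Or.inr (Or.inr (Or.inl ⟨rfl, rfl⟩))))
      (hX _ _ (Or.inr (Or.inr (Or.inr ⟨rfl, rfl⟩))))
    · intro x hx
      rcases (hN x).1 (Or.inr hx) with rfl | rfl | rfl | rfl
      · exact Or.inl rfl
      · exact absurd hx (as _ _ a2)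
      · exact Or.inr rfl
      · exact absurd hx (as _ _ a4)
    · intro x hx
      rcases (hN x).1 (Or.inl hx) with rfl | rfl | rfl | rfl
      · exact absurd hx (as _ _ a1)
      · exact Or.inl rfl
      · exact absurd hx (as _ _ a3)
      · exact Or.inr rfl

end Pool.Agent.H21.G4
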