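import Pool.Agent.H72.G4.Fill

/-!
# Tools for the configuration rows

* `quad_two` : the neighbours of a dummy `d` adjacent to `v` are `v`, an in-neighbour, an
  out-neighbour and one opposite vertex.
* `common_nb`, `common_nb'` : no directed triangle through a new arc `p → q`, except over
  a neighbour of `v`.
* `fil_asymm`, `fil_tri` : asymmetry and no directed triangle for `Fil D v A`.
-/

set_option autoImplicit false

namespace Pool.Agent.H21.G4

open Relation Pool.Agent.H13.DA Pool.Agent.H72.G4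

variable {V : Type*} [DecidableEq V] {T : Finset (V × V × V)} {D : V → V → Prop} {a b c : V}

/-- a dummy is in a directed quad -/
theorem quad_two (hT : Ts T D a b c) {d v : V} (hd : ¬ Re D d) (hdv : Adj T d v) :
    ∃ s t o, D s v ∧ D v t ∧ D t o ∧ D o s ∧ ¬ Ar D v o ∧
      ∀ p, Adj T d p → p = s ∨ p = v ∨ p = t ∨ p = o := by
  have hdm : d ∈ verts T := (verts_adj hT.pl.disc.cx).2 ⟨v, hdv⟩
  obtain ⟨x1, x2, x3, x4, f1, f2, f3, f4, f5⟩ := hT.du d hdm hd
  have n13 : ¬ Ar D x1 x3 := by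
    rintro (h | h)
    · exact hT.pl.tri _ _ _ h f3 f4
    · exact hT.pl.tri _ _ _ f1 f2 h
  have n24 : ¬ Ar D x2 x4 := by
    rintro (h | h)
    · exact hT.pl.tri _ _ _ h f4 f1
    · exact hT.pl.tri _ _ _ f2 f3 h
  rcases (f5 v).1 hdv with rfl | rfl | rfl | rfl
  · exact ⟨x4, x2, x3, f4, f1, f2, f3, n13, fun p hp => by
      rcases (f5 p).1 hp with h | h | h | h <;> simp [h]⟩
  · exact ⟨x1, x3, x4, f1, f2, f3, f4, n24, fun p hp => by
      rcases (f5 p).1 hp with h | h | h | h <;> simp [h]⟩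
  · exact ⟨x2, x4, x1, f2, f3, f4, f1, fun h => n13 (Or.symm h), fun p hp => by
      rcases (f5 p).1 hp with h | h | h | h <;> simp [h]⟩
  · exact ⟨x3, x1, x2, f3, f4, f1, f2, fun h => n24 (Or.symm h), fun p hp => by
      rcases (f5 p).1 hp with h | h | h | h <;> simp [h]⟩

/-- two out-neighbours of `v` at the same dummy are equal -/
theorem dummy_out (hT : Ts T D a b c) {d v p q : V} (hd : ¬ Re D d) (hdv : Adj T d v)
    (hp : Adj T d p) (hq : Adj T d q) (h1 : D v p) (h2 : D v q) : p = q := by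
  obtain ⟨s, t, o, g1, g2, g3, g4, g5, g6⟩ := quad_two hT hd hdv
  have key : ∀ u, Adj T d u → D v u → u = t := by
    intro u hu hvu
    rcases g6 u hu with rfl | rfl | rfl | rfl
    · exact absurd hvu (hT.pl.asymm _ _ g1)
    · exact absurd hvu (hT.pl.asymm _ _ hvu)
    · rfl
    · exact absurd (Or.inl hvu) g5
  rw [key p hp h1, key q hq h2]

/-- two in-neighbours of `v` at the same dummy are equal -/
theorem dummy_in (hT : Ts T D a b c) {d v p q : V} (hd : ¬ Re D d) (hdv : Adj T d v)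
    (hp : Adj T d p) (hq : Adj T d q) (h1 : D p v) (h2 : D q v) : p = q := by
  obtain ⟨s, t, o, g1, g2, g3, g4, g5, g6⟩ := quad_two hT hd hdv
  have key : ∀ u, Adj T d u → D u v → u = s := by
    intro u hu huv
    rcases g6 u hu with rfl | rfl | rfl | rfl
    · rfl
    · exact absurd huv (hT.pl.asymm _ _ huv)
    · exact absurd huv (hT.pl.asymm _ _ g2)
    · exact absurd (Or.inr huv) g5
  rw [key p hp h1, key q hq h2]

/-- a directed triangle over a new arc `p → q` which is not of the form in → out goes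
through a neighbour of `v` -/
theorem common_nb (hT : Ts T D a b c) {v p q z : V} (hg : Good T D v) (h1 : Ar D v p)
    (h2 : Ar D v q) (hpq : p ≠ q) (hn : ¬ Ar D p q) (hz : z ≠ v) (hqz : D q z) (hzp : D z p)
    (hio : ¬ (D p v ∧ D v q)) : Ar D v z := by
  rcases good_common hT hg h1 h2 hpq hn hz (Or.inr hzp) (Or.inl hqz) with h | h | h
  · exact h
  · exact absurd ⟨h.1, h.2.1⟩ hio
  · exact absurd h.2.2.2 (hT.pl.asymm _ _ hqz)

omit [DecidableEq V] in
/-- the same for any new arc between vertices without a common dummy at `v` -/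
theorem common_nb' {v p q z : V} (hg : Good T D v) (h1 : Ar D v p)
    (h2 : Ar D v q) (hpq : p ≠ q) (hn : ¬ Ar D p q) (hz : z ≠ v) (hqz : D q z) (hzp : D z p)
    (hd : ∀ d, ¬ Re D d → Adj T d v → Adj T d p → ¬ Adj T d q) : Ar D v z := by
  rcases hg p q z h1 h2 hpq hn hz (Or.inr hzp) (Or.inl hqz) with h | ⟨d, e1, e2, e3, e4, _⟩
  · exact h
  · exact absurd e4 (hd d e1 e2 e3)

omit [DecidableEq V] in
/-- asymmetry of `Fil D v A` -/
theorem fil_asymm {v : V} {A : V → V → Prop} (has : ∀ x y, D x y → ¬ D y x)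
    (h1 : ∀ x y, A x y → ¬ Ar D x y) (h2 : ∀ x y, A x y → ¬ A y x) :
    ∀ x y, Fil D v A x y → ¬ Fil D v A y x := by
  rintro x y (h | h) (k | k)
  · exact has _ _ h.1 k.1
  · exact h1 _ _ k (Or.inr h.1)
  · exact h1 _ _ h (Or.inr k.1)
  · exact h2 _ _ h k

omit [DecidableEq V] in
/-- no directed triangle in `Fil D v A` -/
theorem fil_tri {v : V} {A : V → V → Prop} (ht : ∀ x y z, D x y → D y z → ¬ D z x)
    (h : ∀ p q z, A p q → Fil D v A q z → ¬ Fil D v A z p) :
    ∀ x y z, Fil D v A x y → Fil D v A y z → ¬ Fil D v A z x := by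
  rintro x y z h1 h2 h3
  rcases h1 with k1 | k1
  · rcases h2 with k2 | k2
    · rcases h3 with k3 | k3
      · exact ht _ _ _ k1.1 k2.1 k3.1
      · exact h _ _ _ k3 (Or.inl k1) (Or.inl k2)
    · exact h _ _ _ k2 h3 (Or.inl k1)
  · exact h _ _ _ k1 h2 h3

end Pool.Agent.H21.G4
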