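import Pool.Agent.H65.G4.Pc2
import Pool.Agent.H21.G4.Tools

/-!
# The ear side of a path contraction, `w = s`, any new arcs

`ear_ok` : the image of the filled digraph has no directed 2- and 3-cycles.  The new arcs go
between `s` (the contracted vertex) and the neighbours of `u` other than `o`, `i`, and all arcs
of the image inside this set increase a rank `rk`.
-/

set_option autoImplicit false

namespace Pool.Agent.H21.G4

open Relation Pool.Agent.H13.DA Pool.Agent.H72.G4 Pool.Agent.H65.G4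

variable {V : Type*} [DecidableEq V] {T : Finset (V × V × V)} {D : V → V → Prop} {a b c : V}
  {u o s i d : V} {A : V → V → Prop}

/-- the D-part of the image -/
def Dd (D : V → V → Prop) (u o s i d : V) (x y : V) : Prop :=
  (x = s ∧ (¬ Wq o s i d y ∧ y ≠ u) ∧ ∃ t, Wq o s i d t ∧ D t y) ∨
  (y = s ∧ (¬ Wq o s i d x ∧ x ≠ u) ∧ ∃ t, Wq o s i d t ∧ D x t) ∨
  ((¬ Wq o s i d x ∧ x ≠ u) ∧ (¬ Wq o s i d y ∧ y ≠ u) ∧ D x y)

/-- no common dummy of `p`, `q` at `u` -/
def Ncd (T : Finset (V × V × V)) (D : V → V → Prop) (u p q : V) : Prop :=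
  ∀ d', ¬ Re D d' → Adj T d' u → Adj T d' p → ¬ Adj T d' q

omit [DecidableEq V] in
theorem imd_cases (hA : ∀ x y, A x y → (x = s ∨ ¬ Wq o s i d x) ∧ (y = s ∨ ¬ Wq o s i d y))
    {x y : V} (h : Imd (rp (Wq o s i d) s) (Fil D u A) x y) : A x y ∨ Dd D u o s i d x y := by
  have hs : Wq o s i d s := Or.inr (Or.inl rfl)
  have fs : rp (Wq o s i d) s s = s := rp_in hs
  obtain ⟨hne, x', y', e1, e2, k | k⟩ := h
  · right
    obtain ⟨k1, k2, k3⟩ := k
    by_cases hx : Wq o s i d x'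
    · rw [rp_in hx] at e1
      subst e1
      by_cases hy : Wq o s i d y'
      · rw [rp_in hy] at e2
        exact absurd e2 hne
      · rw [rp_out hy] at e2
        subst e2
        exact Or.inl ⟨rfl, ⟨hy, k3⟩, x', hx, k1⟩
    · rw [rp_out hx] at e1
      subst e1
      by_cases hy : Wq o s i d y'
      · rw [rp_in hy] at e2
        exact Or.inr (Or.inl ⟨e2.symm, ⟨hx, k2⟩, y', hy, k1⟩)
      · rw [rp_out hy] at e2
        subst e2
        exact Or.inr (Or.inr ⟨⟨hx, k2⟩, ⟨hy, k3⟩, k1⟩)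
  · left
    obtain ⟨h1, h2⟩ := hA x' y' k
    have g1 : x' = x := by
      rcases h1 with rfl | h1
      · rw [fs] at e1
        exact e1
      · rw [rp_out h1] at e1
        exact e1
    have g2 : y' = y := by
      rcases h2 with rfl | h2
      · rw [fs] at e2
        exact e2
      · rw [rp_out h2] at e2
        exact e2
    rw [g1, g2] at k
    exact k

omit [DecidableEq V] in
theorem dd_asymm (has : ∀ x y, D x y → ¬ D y x)
    (ear2 : ∀ x y z, Wq o s i d x → ¬ Wq o s i d y → y ≠ u → Wq o s i d z → D x y → ¬ D y z) :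
    ∀ x y, Dd D u o s i d x y → ¬ Dd D u o s i d y x := by
  have hs : Wq o s i d s := Or.inr (Or.inl rfl)
  rintro x y (⟨rfl, h1, t, h2, h3⟩ | ⟨rfl, h1, t, h2, h3⟩ | ⟨h1, h2, h3⟩)
    (⟨k0, k1, t', k2, k3⟩ | ⟨k0, k1, t', k2, k3⟩ | ⟨k1, k2, k3⟩)
  · exact k1.1 hs
  · exact ear2 _ _ _ h2 h1.1 h1.2 k2 h3 k3
  · exact k2.1 hs
  · exact ear2 _ _ _ k2 h1.1 h1.2 h2 k3 h3
  · exact k1.1 hs
  · exact k1.1 hs
  · exact h2.1 (k0 ▸ hs)
  · exact h1.1 (k0 ▸ hs)
  · exact has _ _ h3 k3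

omit [DecidableEq V] in
theorem dd_tri (htr : ∀ x y z, D x y → D y z → ¬ D z x)
    (ear3 : ∀ x y z t, Wq o s i d x → ¬ Wq o s i d y → ¬ Wq o s i d z → y ≠ u → z ≠ u →
      Wq o s i d t → D x y → D y z → ¬ D z t) :
    ∀ x y z, Dd D u o s i d x y → Dd D u o s i d y z → ¬ Dd D u o s i d z x := by
  have hs : Wq o s i d s := Or.inr (Or.inl rfl)
  -- a triangle at `s`
  have key : ∀ y z, Dd D u o s i d s y → Dd D u o s i d y z → ¬ Dd D u o s i d z s := by
    intro y z h1 h2 h3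
    have g1 : (¬ Wq o s i d y ∧ y ≠ u) ∧ ∃ t, Wq o s i d t ∧ D t y := by
      rcases h1 with ⟨_, g1, g2⟩ | ⟨_, g1, _⟩ | ⟨g1, _⟩
      · exact ⟨g1, g2⟩
      · exact absurd hs g1.1
      · exact absurd hs g1.1
    have g3 : (¬ Wq o s i d z ∧ z ≠ u) ∧ ∃ t, Wq o s i d t ∧ D z t := by
      rcases h3 with ⟨_, g1, _⟩ | ⟨_, g1, g2⟩ | ⟨_, g1, _⟩
      · exact absurd hs g1.1
      · exact ⟨g1, g2⟩
      · exact absurd hs g1.1
    have g2 : D y z := by
      rcases h2 with ⟨e, _⟩ | ⟨e, _⟩ | ⟨_, _, g⟩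
      · exact absurd (e ▸ hs) g1.1.1
      · exact absurd (e ▸ hs) g3.1.1
      · exact g
    obtain ⟨⟨a1, a2⟩, t, a3, a4⟩ := g1
    obtain ⟨⟨b1, b2⟩, t', b3, b4⟩ := g3
    exact ear3 t y z t' a3 a1 b1 a2 b2 b3 a4 g2 b4
  intro x y z h1 h2 h3
  by_cases hx : x = s
  · subst hx
    exact key _ _ h1 h2 h3
  by_cases hy : y = s
  · subst hy
    exact key _ _ h2 h3 h1
  by_cases hz : z = s
  · subst hz
    exact key _ _ h3 h1 h2
  have g : ∀ {x y}, x ≠ s → y ≠ s → Dd D u o s i d x y → D x y := by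
    rintro x y g1 g2 (⟨e, _⟩ | ⟨e, _⟩ | ⟨_, _, g⟩)
    · exact absurd e g1
    · exact absurd e g2
    · exact g
  exact htr _ _ _ (g hx hy h1) (g hy hz h2) (g hz hx h3)

/-- **The ear side of a path contraction.** -/
theorem ear_ok (hT : Ts T D a b c) (hg : Good T D u) (h : Qd T D u o s i d)
    (n2 : ∀ q, Adj T u q → Adj T s q → q = o ∨ q = i ∨ q = d)
    (ear2 : ∀ x y z, Wq o s i d x → ¬ Wq o s i d y → y ≠ u → Wq o s i d z → D x y → ¬ D y z)
    (ear3 : ∀ x y z t, Wq o s i d x → ¬ Wq o s i d y → ¬ Wq o s i d z → y ≠ u → z ≠ u →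
      Wq o s i d t → D x y → D y z → ¬ D z t)
    (far : ∀ n m, (A s n ∨ A n s) → m ≠ u → ¬ Wq o s i d m → ¬ Ar D u m → Ar D n m → ¬ Ar D m s)
    (rk : V → ℕ) (r0 : ∀ x y, A x y → rk x < rk y)
    (r1 : ∀ x y, (Ar D u x ∧ x ≠ o ∧ x ≠ i) → (Ar D u y ∧ y ≠ o ∧ y ≠ i) → D x y → rk x < rk y)
    (r2 : ∀ x, (Ar D u x ∧ x ≠ o ∧ x ≠ i) → D x o ∨ D x i → rk x < rk s)
    (r3 : ∀ x, (Ar D u x ∧ x ≠ o ∧ x ≠ i) → D o x ∨ D i x → rk s < rk x)
    (hA : ∀ p q, A p q →
      (p = s ∧ (Ar D u q ∧ q ≠ o ∧ q ≠ i) ∧ ¬ Ar D o q ∧ ¬ Ar D i q ∧ (D q u ∨ Ncd T D u i q)) ∨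
      (q = s ∧ (Ar D u p ∧ p ≠ o ∧ p ≠ i) ∧ ¬ Ar D o p ∧ ¬ Ar D i p ∧ (D u p ∨ Ncd T D u p o)) ∨
      ((Ar D u p ∧ p ≠ o ∧ p ≠ i) ∧ (Ar D u q ∧ q ≠ o ∧ q ≠ i) ∧ p ≠ q ∧ ¬ Ar D p q ∧
        (¬ (D p u ∧ D u q) ∨ Ncd T D u p q))) :
    (∀ x y, Imd (rp (Wq o s i d) s) (Fil D u A) x y →
      ¬ Imd (rp (Wq o s i d) s) (Fil D u A) y x) ∧
    (∀ x y z, Imd (rp (Wq o s i d) s) (Fil D u A) x y →
      Imd (rp (Wq o s i d) s) (Fil D u A) y z → ¬ Imd (rp (Wq o s i d) s) (Fil D u A) z x) := by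
  have has := hT.pl.asymm
  have htr := hT.pl.tri
  have cx := hT.pl.disc.cx
  have irr : ∀ x, ¬ D x x := fun x k => has x x k k
  have nar : ∀ x, ¬ Ar D x x := by
    rintro x (k | k) <;> exact irr x k
  have hs : Wq o s i d s := Or.inr (Or.inl rfl)
  have auo : Ar D u o := Or.inl h.uo
  have aui : Ar D u i := Or.inr h.iu
  have aos : Ar D o s := Or.inl h.os
  have asi : Ar D s i := Or.inl h.si
  -- a survivor is not adjacent to `s`
  have ns : ∀ x, (Ar D u x ∧ x ≠ o ∧ x ≠ i) → ¬ Ar D s x := by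
    rintro x ⟨h1, h2, h3⟩ k
    rcases n2 x (hT.pl.ar_adj h1) (hT.pl.ar_adj k) with e | e | e
    · exact h2 e
    · exact h3 e
    · exact h.nd (e ▸ (ar_re h1).2)
  have us : ¬ Ar D u s := by
    rintro (k | k)
    · exact htr _ _ _ k h.si h.iu
    · exact htr _ _ _ h.uo h.os k
  -- a survivor is not in `Wq`
  have mW : ∀ x, (Ar D u x ∧ x ≠ o ∧ x ≠ i) → ¬ Wq o s i d x := by
    rintro x ⟨h1, h2, h3⟩ (k | k | k | k)
    · exact h2 k
    · exact us (k ▸ h1)
    · exact h3 k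
    · exact h.nd (k ▸ (ar_re h1).2)
  have int : ∀ x y, A x y → (x = s ∨ (Ar D u x ∧ x ≠ o ∧ x ≠ i)) ∧
      (y = s ∨ (Ar D u y ∧ y ≠ o ∧ y ≠ i)) := by
    intro x y k
    rcases hA x y k with k | k | k
    · exact ⟨Or.inl k.1, Or.inr k.2.1⟩
    · exact ⟨Or.inr k.2.1, Or.inl k.1⟩
    · exact ⟨Or.inr k.1, Or.inr k.2.1⟩
  have hAW : ∀ x y, A x y → (x = s ∨ ¬ Wq o s i d x) ∧ (y = s ∨ ¬ Wq o s i d y) := by
    intro x y k
    obtain ⟨k1, k2⟩ := int x y k
    exact ⟨k1.imp id (mW x), k2.imp id (mW y)⟩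
  have wre : ∀ t z, Wq o s i d t → Ar D t z → t = o ∨ t = s ∨ t = i := by
    rintro t z (k | k | k | k) g
    · exact Or.inl k
    · exact Or.inr (Or.inl k)
    · exact Or.inr (Or.inr k)
    · exact absurd (k ▸ (ar_re g).1) h.nd
  -- arcs inside increase the rank
  have rD : ∀ x y, (x = s ∨ (Ar D u x ∧ x ≠ o ∧ x ≠ i)) → (y = s ∨ (Ar D u y ∧ y ≠ o ∧ y ≠ i)) →
      Dd D u o s i d x y → rk x < rk y := by
    rintro x y hx hy (⟨rfl, k1, t, k2, k3⟩ | ⟨rfl, k1, t, k2, k3⟩ | ⟨k1, k2, k3⟩)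
    · rcases hy with rfl | hy
      · exact absurd hs k1.1
      · rcases wre t y k2 (Or.inl k3) with rfl | rfl | rfl
        · exact r3 y hy (Or.inl k3)
        · exact absurd (Or.inl k3) (ns y hy)
        · exact r3 y hy (Or.inr k3)
    · rcases hx with rfl | hx
      · exact absurd hs k1.1
      · rcases wre t x k2 (Or.inr k3) with rfl | rfl | rfl
        · exact r2 x hx (Or.inl k3)
        · exact absurd (Or.inr k3) (ns x hx)
        · exact r2 x hx (Or.inr k3)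
    · rcases hx with rfl | hx
      · exact absurd hs k1.1
      · rcases hy with rfl | hy
        · exact absurd hs k2.1
        · exact r1 x y hx hy k3
  -- no directed triangle over an outside vertex
  have cn : ∀ p q z, Ar D u p → Ar D u q → p ≠ q → ¬ Ar D p q → z ≠ u → D q z → D z p →
      (¬ (D p u ∧ D u q) ∨ Ncd T D u p q) → Ar D u z := by
    intro p q z h1 h2 h3 h4 h5 h6 h7 h8
    rcases h8 with h8 | h8
    · exact common_nb hT hg h1 h2 h3 h4 h5 h6 h7 h8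
    · exact common_nb' hg h1 h2 h3 h4 h5 h6 h7 h8
  have ext : ∀ p q z, A p q → ¬ (z = s ∨ (Ar D u z ∧ z ≠ o ∧ z ≠ i)) → Dd D u o s i d q z →
      ¬ Dd D u o s i d z p := by
    intro p q z hpq hz h1 h2
    have zs : z ≠ s := fun e => hz (Or.inl e)
    have zW : ¬ Wq o s i d z ∧ z ≠ u := by
      rcases h1 with ⟨_, k, _⟩ | ⟨e, _⟩ | ⟨_, k, _⟩
      · exact k
      · exact absurd e zs
      · exact k
    have zo : z ≠ o := fun e => zW.1 (Or.inl e)
    have zi : z ≠ i := fun e => zW.1 (Or.inr (Or.inr (Or.inl e)))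
    have nz : ¬ Ar D u z := fun k => hz (Or.inr ⟨k, zo, zi⟩)
    have q1 : (q = s ∧ ∃ t, Wq o s i d t ∧ D t z) ∨ (q ≠ s ∧ D q z) := by
      rcases h1 with ⟨e, _, k⟩ | ⟨e, _⟩ | ⟨k1, _, k⟩
      · exact Or.inl ⟨e, k⟩
      · exact absurd e zs
      · exact Or.inr ⟨fun e => k1.1 (e ▸ hs), k⟩
    have p1 : (p = s ∧ ∃ t, Wq o s i d t ∧ D z t) ∨ (p ≠ s ∧ D z p) := by
      rcases h2 with ⟨e, _⟩ | ⟨e, _, k⟩ | ⟨_, k1, k⟩
      · exact absurd e zs
      · exact Or.inl ⟨e, k⟩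
      · exact Or.inr ⟨fun e => k1.1 (e ▸ hs), k⟩
    rcases hA p q hpq with ⟨rfl, m, k1, k2, k3⟩ | ⟨rfl, m, k1, k2, k3⟩ | ⟨m1, m2, k0, k1, k3⟩
    · -- s → q
      have qs : q ≠ p := by
        rintro rfl
        exact us m.1
      have g1 : D q z := by
        rcases q1 with ⟨e, _⟩ | ⟨_, e⟩
        · exact absurd e qs
        · exact e
      obtain ⟨t, g2, g3⟩ : ∃ t, Wq o p i d t ∧ D z t := by
        rcases p1 with ⟨_, e⟩ | ⟨e, _⟩
        · exact e
        · exact absurd rfl e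
      rcases wre t z g2 (Or.inr g3) with rfl | rfl | rfl
      · exact nz (cn t q z auo m.1 m.2.1.symm k1 zW.2 g1 g3
          (Or.inl fun e => has _ _ h.uo e.1))
      · exact far q z (Or.inl hpq) zW.2 zW.1 nz (Or.inl g1) (Or.inl g3)
      · refine nz (cn t q z aui m.1 m.2.2.symm k2 zW.2 g1 g3 ?_)
        rcases k3 with k3 | k3
        · exact Or.inl fun e => has _ _ k3 e.2
        · exact Or.inr k3
    · -- p → s
      have ps : p ≠ q := by
        rintro rfl
        exact us m.1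
      have g1 : D z p := by
        rcases p1 with ⟨e, _⟩ | ⟨_, e⟩
        · exact absurd e ps
        · exact e
      obtain ⟨t, g2, g3⟩ : ∃ t, Wq o q i d t ∧ D t z := by
        rcases q1 with ⟨_, e⟩ | ⟨e, _⟩
        · exact e
        · exact absurd rfl e
      rcases wre t z g2 (Or.inl g3) with rfl | rfl | rfl
      · refine nz (cn p t z m.1 auo m.2.1 (fun e => k1 (ar_symm e)) zW.2 g3 g1 ?_)
        rcases k3 with k3 | k3
        · exact Or.inl fun e => has _ _ k3 e.1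
        · exact Or.inr k3
      · exact far p z (Or.inr hpq) zW.2 zW.1 nz (Or.inr g1) (Or.inr g3)
      · exact nz (cn p t z m.1 aui m.2.2 (fun e => k2 (ar_symm e)) zW.2 g3 g1
          (Or.inl fun e => has _ _ h.iu e.2))
    · -- p → q
      have ps : p ≠ s := by
        rintro rfl
        exact us m1.1
      have qs : q ≠ s := by
        rintro rfl
        exact us m2.1
      have g1 : D z p := by
        rcases p1 with ⟨e, _⟩ | ⟨_, e⟩
        · exact absurd e ps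
        · exact e
      have g2 : D q z := by
        rcases q1 with ⟨e, _⟩ | ⟨_, e⟩
        · exact absurd e qs
        · exact e
      exact nz (cn p q z m1.1 m2.1 k0 k1 zW.2 g2 g1 k3)
  -- conclusion
  have P : ∀ {x y}, Imd (rp (Wq o s i d) s) (Fil D u A) x y → A x y ∨ Dd D u o s i d x y :=
    fun k => imd_cases hAW k
  have rP : ∀ x y, (x = s ∨ (Ar D u x ∧ x ≠ o ∧ x ≠ i)) → (y = s ∨ (Ar D u y ∧ y ≠ o ∧ y ≠ i)) →
      Imd (rp (Wq o s i d) s) (Fil D u A) x y → rk x < rk y := by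
    intro x y hx hy k
    rcases P k with k | k
    · exact r0 x y k
    · exact rD x y hx hy k
  constructor
  · intro x y k1 k2
    rcases P k1 with g1 | g1
    · have g3 := int x y g1
      have := rP y x g3.2 g3.1 k2
      have := r0 x y g1
      omega
    · rcases P k2 with g2 | g2
      · have g3 := int y x g2
        have := rP x y g3.2 g3.1 k1
        have := r0 y x g2
        omega
      · exact dd_asymm has ear2 x y g1 g2
  · -- a triangle with a new arc first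
    have key : ∀ x y z, A x y → Imd (rp (Wq o s i d) s) (Fil D u A) y z →
        ¬ Imd (rp (Wq o s i d) s) (Fil D u A) z x := by
      intro x y z g1 k2 k3
      obtain ⟨i1, i2⟩ := int x y g1
      by_cases hz : z = s ∨ (Ar D u z ∧ z ≠ o ∧ z ≠ i)
      · have := rP y z i2 hz k2
        have := rP z x hz i1 k3
        have := r0 x y g1
        omega
      · rcases P k2 with g2 | g2
        · exact hz (int y z g2).2
        · rcases P k3 with g3 | g3
          · exact hz (int z x g3).1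
          · exact ext x y z g1 hz g2 g3
    intro x y z k1 k2 k3
    rcases P k1 with g1 | g1
    · exact key x y z g1 k2 k3
    · rcases P k2 with g2 | g2
      · exact key y z x g2 k3 k1
      · rcases P k3 with g3 | g3
        · exact key z x y g3 k1 k2
        · exact dd_tri htr ear3 x y z g1 g2 g3

end Pool.Agent.H21.G4
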