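import Pool.Agent.H21.G4.Ear
import Pool.Agent.H65.G4.Lift
import Pool.Agent.H21.G4.Cuts67
import Pool.Agent.H13.G4.Pc

/-!
# Path contraction at the words `2mqqq` and `2qqqq`, corner 4

`u` with spokes `x0` in, `x1` in, `x2` out, `x3` in, `x4` out, ring arc `x1 → x0`, the corner
`x1 x2` is a quad or mid (`x1 → x2`), the other corners are quads; contracted path
`x4 → s → x0`; new arcs `s → x2`, `s → x3`, `x2 → x3`.
-/

set_option autoImplicit false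

namespace Pool.Agent.H21.G4

open Relation Pool.Agent.H13.DA Pool.Agent.H72.G4 Pool.Agent.H55.G4 Pool.Agent.H65.G4
  Pool.Agent.H13.G4

variable {V : Type*} [DecidableEq V] {T : Finset (V × V × V)} {D : V → V → Prop} {a b c : V}

theorem chk_2qqqq : chk [(0,0,0,0),(0,1,0,0),(1,0,0,0),(5,0,0,0)]
    [St.twin 0 true, St.twin 0 false, St.free 42 20] = true := by
  decide +kernel

/-- names of the seven vertices -/
def nm7 (x1 x2 x3 x4 x5 x6 v : V) : ℕ → V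
  | 0 => x1
  | 1 => x2
  | 2 => x3
  | 3 => x4
  | 4 => x5
  | 5 => x6
  | _ => v

omit [DecidableEq V] in
theorem nm7_inj {x1 x2 x3 x4 x5 x6 v : V} (h12 : x1 ≠ x2) (h13 : x1 ≠ x3) (h14 : x1 ≠ x4)
    (h15 : x1 ≠ x5) (h16 : x1 ≠ x6) (h1 : x1 ≠ v) (h23 : x2 ≠ x3) (h24 : x2 ≠ x4) (h25 : x2 ≠ x5)
    (h26 : x2 ≠ x6) (h2 : x2 ≠ v) (h34 : x3 ≠ x4) (h35 : x3 ≠ x5) (h36 : x3 ≠ x6) (h3 : x3 ≠ v)
    (h45 : x4 ≠ x5) (h46 : x4 ≠ x6) (h4 : x4 ≠ v) (h56 : x5 ≠ x6) (h5 : x5 ≠ v) (h6 : x6 ≠ v) :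
    ∀ x y, x < 7 → y < 7 → nm7 x1 x2 x3 x4 x5 x6 v x = nm7 x1 x2 x3 x4 x5 x6 v y → x = y := by
  intro x y hx hy h
  interval_cases x <;> interval_cases y <;> simp only [nm7] at h <;>
    first | rfl | exact absurd h ‹_› | exact absurd h.symm ‹_›

/-- the new arcs -/
def Ago (s x2 x3 : V) (x y : V) : Prop :=
  (x = s ∧ y = x2) ∨ (x = s ∧ y = x3) ∨ (x = x2 ∧ y = x3)

theorem red_2qqqq [Infinite V] (hM : MCw T D a b c) (hT : Ts T D a b c)
    {u x0 x1 x2 x3 x4 s d d2 : V} (hu : ¬ Tr a b c u) (hg : Good T D u)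
    (hN : ∀ y, Ar D u y ↔ y = x0 ∨ y = x1 ∨ y = x2 ∨ y = x3 ∨ y = x4)
    (a1 : D x1 u) (a2 : D u x2) (a3 : D x3 u) (r : D x1 x0) (h : Qd T D u x4 s x0 d)
    (no : ¬ Tr a b c x4) (ni : ¬ Tr a b c x0)
    (n02 : ¬ Ar D x0 x2) (n03 : ¬ Ar D x0 x3) (n12 : ¬ D x2 x1) (n13 : ¬ Ar D x1 x3)
    (n14 : ¬ Ar D x1 x4) (n23 : ¬ Ar D x2 x3) (n24 : ¬ Ar D x2 x4) (n34 : ¬ Ar D x3 x4)
    (e03 : x0 ≠ x3) (e24 : x2 ≠ x4)
    (hd2 : ¬ Re D d2) (g1 : Adj T u d2) (g2 : Adj T d2 x2) (g3 : Adj T d2 x3)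
    (n1 : ∀ q, Adj T x4 q → Adj T x0 q → q = u ∨ q = s ∨ q = d)
    (n2 : ∀ q, Adj T u q → Adj T s q → q = x4 ∨ q = x0 ∨ q = d)
    (ear2 : ∀ x y z, Wq x4 s x0 d x → ¬ Wq x4 s x0 d y → y ≠ u → Wq x4 s x0 d z → D x y → ¬ D y z)
    (ear3 : ∀ x y z t, Wq x4 s x0 d x → ¬ Wq x4 s x0 d y → ¬ Wq x4 s x0 d z → y ≠ u → z ≠ u →
      Wq x4 s x0 d t → D x y → D y z → ¬ D z t)
    (far : ∀ n m, (n = x2 ∨ n = x3) → m ≠ u → ¬ Wq x4 s x0 d m → ¬ Ar D u m → Ar D n m →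
      ¬ Ar D m s) :
    False := by
  obtain ⟨f1, f2, f3, f4, f5, f6, f7, f8, f9, f10⟩ := h.ne hT
  have as := hT.pl.asymm
  have htr := hT.pl.tri
  have cx := hT.pl.disc.cx
  have irr : ∀ x, ¬ D x x := fun x h => as x x h h
  have a0 : D x0 u := h.iu
  have a4 : D u x4 := h.uo
  have us : ¬ Ar D u s := by
    rintro (k | k)
    · exact htr _ _ _ k h.si h.iu
    · exact htr _ _ _ h.uo h.os k
  have m0 : Ar D u x0 := Or.inr a0
  have m1 : Ar D u x1 := Or.inr a1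
  have m2 : Ar D u x2 := Or.inl a2
  have m3 : Ar D u x3 := Or.inr a3
  have e1s : x1 ≠ s := fun e => us (e ▸ m1)
  have e2s : x2 ≠ s := fun e => us (e ▸ m2)
  have e3s : x3 ≠ s := fun e => us (e ▸ m3)
  have e01 : x0 ≠ x1 := fun e => irr _ (e ▸ r : D x1 x1)
  have e02 : x0 ≠ x2 := fun e => as _ _ a0 (e ▸ a2)
  have e12 : x1 ≠ x2 := fun e => as _ _ a1 (e ▸ a2)
  have e13 : x1 ≠ x3 := by
    rintro rfl
    exact n03 (Or.inr r)
  have e14 : x1 ≠ x4 := fun e => as _ _ a1 (e ▸ a4)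
  have e23 : x2 ≠ x3 := fun e => as _ _ a2 (e ▸ a3)
  have e34 : x3 ≠ x4 := fun e => as _ _ a3 (e ▸ a4)
  have u1 : x1 ≠ u := fun e => irr _ (e ▸ a1 : D x1 x1)
  have u2 : x2 ≠ u := fun e => irr _ (e ▸ a2 : D x2 x2)
  have u3 : x3 ≠ u := fun e => irr _ (e ▸ a3 : D x3 x3)
  have wof : ∀ x, Ar D u x → x ≠ x0 → x ≠ x4 → ¬ Wq x4 s x0 d x := by
    rintro x k0 k1 k2 (k | k | k | k)
    · exact k2 k
    · exact us (k ▸ k0)
    · exact k1 k
    · exact h.nd (k ▸ (ar_re k0).2)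
  have w1 := wof x1 m1 e01.symm e14
  have w2 := wof x2 m2 e02.symm e24
  have w3 := wof x3 m3 e03.symm e34
  have hdd : d2 ≠ d := by
    rintro rfl
    rcases (h.adj x2).1 g2 with k | k | k | k
    · exact u2 k
    · exact e24 k
    · exact e2s k
    · exact e02 k.symm
  have sr : Re D s := ⟨_, Or.inl h.si⟩
  have hs : Wq x4 s x0 d s := Or.inr (Or.inl rfl)
  have fs : rp (Wq x4 s x0 d) s s = s := rp_in hs
  have f0 : rp (Wq x4 s x0 d) s x0 = s := rp_in (Or.inr (Or.inr (Or.inl rfl)))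
  -- the survivors
  have surv : ∀ x, (Ar D u x ∧ x ≠ x4 ∧ x ≠ x0) → x = x1 ∨ x = x2 ∨ x = x3 := by
    rintro x ⟨k1, k2, k3⟩
    rcases (hN x).1 k1 with k | k | k | k | k
    · exact absurd k k3
    · exact Or.inl k
    · exact Or.inr (Or.inl k)
    · exact Or.inr (Or.inr k)
    · exact absurd k k2
  -- no dummy at `x0` and `x2`
  have ncd : Ncd T D u x0 x2 := by
    intro d' k1 k2 k3 k4
    have fc1 : ∀ z, Adj T u z → Adj T x0 z → Face T u x0 z := by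
      intro z l1 l2
      rcases hT.fc u x0 z (hT.pl.ar_adj m0) l2 l1.symm with l | ⟨l, _⟩
      · exact l
      · exact absurd l hu
    have q1 := fc1 x1 (hT.pl.ar_adj m1) (hT.pl.adj _ _ r).symm
    have q2 := fc1 d ((h.adj u).2 (Or.inl rfl)).symm
      ((h.adj x0).2 (Or.inr (Or.inr (Or.inr rfl)))).symm
    have q3 := fc1 d' k2.symm k3.symm
    rcases two_faces cx q1 q2 q3 with e | e | e
    · exact h.nd (e ▸ (ar_re m1).2)
    · subst e
      rcases (h.adj x2).1 k4 with k | k | k | k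
      · exact u2 k
      · exact e24 k
      · exact e2s k
      · exact e02 k.symm
    · exact k1 (e ▸ (ar_re m1).2)
  classical
  obtain ⟨has, htri⟩ := ear_ok (A := Ago s x2 x3) hT hg h n2 ear2 ear3 (by
      intro n m hn
      refine far n m ?_
      rcases hn with (⟨_, k⟩ | ⟨_, k⟩ | ⟨k, _⟩) | (⟨_, k⟩ | ⟨_, k⟩ | ⟨_, k⟩)
      · exact Or.inl k
      · exact Or.inr k
      · exact absurd k.symm e2s
      · exact absurd k.symm e2s
      · exact absurd k.symm e3s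
      · exact absurd k.symm e3s)
    (fun x => if x = x1 then 0 else if x = s then 1 else if x = x2 then 2 else 3) (by
      rintro x y (⟨rfl, rfl⟩ | ⟨rfl, rfl⟩ | ⟨rfl, rfl⟩) <;>
        simp [e1s.symm, e12.symm, e2s, e13.symm, e3s, e23.symm]) (by
      intro x y hx hy k
      rcases surv x hx with rfl | rfl | rfl <;> rcases surv y hy with rfl | rfl | rfl
      · exact absurd k (irr _)
      · simp [e12.symm, e2s]
      · exact absurd (Or.inl k) n13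
      · exact absurd k n12
      · exact absurd k (irr _)
      · exact absurd (Or.inl k) n23
      · exact absurd (Or.inr k) n13
      · exact absurd (Or.inr k) n23
      · exact absurd k (irr _)) (by
      intro x hx k
      rcases surv x hx with rfl | rfl | rfl
      · simp [e1s.symm]
      · rcases k with k | k
        · exact absurd (Or.inl k) n24
        · exact absurd (Or.inr k) n02
      · rcases k with k | k
        · exact absurd (Or.inl k) n34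
        · exact absurd (Or.inr k) n03) (by
      intro x hx k
      exfalso
      rcases surv x hx with rfl | rfl | rfl <;> rcases k with k | k
      · exact n14 (Or.inr k)
      · exact as _ _ r k
      · exact n24 (Or.inr k)
      · exact n02 (Or.inl k)
      · exact n34 (Or.inr k)
      · exact n03 (Or.inl k)) (by
      rintro p q (⟨rfl, rfl⟩ | ⟨rfl, rfl⟩ | ⟨rfl, rfl⟩)
      · exact Or.inl ⟨rfl, ⟨m2, e24, e02.symm⟩, fun k => n24 (Or.symm k), n02, Or.inr ncd⟩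
      · exact Or.inl ⟨rfl, ⟨m3, e34, e03.symm⟩, fun k => n34 (Or.symm k), n03, Or.inl a3⟩
      · exact Or.inr (Or.inr ⟨⟨m2, e24, e02.symm⟩, ⟨m3, e34, e03.symm⟩, e23, n23,
          Or.inl fun k => as _ _ k.1 a2⟩))
  refine pc_fill2 (A := Ago s x2 x3) hM hT h hu (w := s) (y1 := x4) (y2 := x0)
    (Or.inr (Or.inl ⟨rfl, Or.inl ⟨rfl, rfl⟩⟩)) no ni n1 n2 (p := x2) (p' := x3) hd2 hdd g1 g2 g3
    (hT.pl.ar_adj m2) w2 w3 e23 u3 ?_ has htri ?_
  · rintro x y (⟨rfl, rfl⟩ | ⟨rfl, rfl⟩ | ⟨rfl, rfl⟩)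
    · exact ⟨sr, (ar_re m2).2, f2.symm, u2, Or.inl ⟨fs, hT.pl.ar_adj m2⟩⟩
    · exact ⟨sr, (ar_re m3).2, f2.symm, u3, Or.inl ⟨fs, hT.pl.ar_adj m3⟩⟩
    · exact ⟨(ar_re m2).2, (ar_re m3).2, u2, u3, Or.inr (Or.inr (Or.inl ⟨rfl, rfl⟩))⟩
  · intro O hO hE
    have r1 : rp (Wq x4 s x0 d) s x1 = x1 := rp_out w1
    have r2 : rp (Wq x4 s x0 d) s x2 = x2 := rp_out w2
    have r3 : rp (Wq x4 s x0 d) s x3 = x3 := rp_out w3
    refine pc_lift hT h chk_2qqqq (by norm_num) (n := nm7 s x1 x2 x3 x4 x0 u)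
      (nm7_inj e1s.symm e2s.symm e3s.symm f5.symm f8 f2.symm e12 e13 e14 e01.symm u1 e23 e24
        e02.symm u2 e34 e03.symm u3 f6 f1.symm f3.symm) rfl rfl rfl rfl ?_ ?_ hO hE
        (pre_of (E := [(1,0),(0,2),(0,3),(2,3)]) (F := []) ?_ (by simp) _ 0 (by decide))
    · intro x hx
      rcases (hN x).1 (Or.inr hx) with rfl | rfl | rfl | rfl | rfl
      · exact ⟨5, by norm_num, rfl, by decide⟩
      · exact ⟨1, by norm_num, rfl, by decide⟩
      · exact absurd hx (as _ _ a2)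
      · exact ⟨3, by norm_num, rfl, by decide⟩
      · exact absurd hx (as _ _ a4)
    · intro x hx
      rcases (hN x).1 (Or.inl hx) with rfl | rfl | rfl | rfl | rfl
      · exact absurd hx (as _ _ a0)
      · exact absurd hx (as _ _ a1)
      · exact ⟨2, by norm_num, rfl, by decide⟩
      · exact absurd hx (as _ _ a3)
      · exact ⟨4, by norm_num, rfl, by decide⟩
    · intro p hp
      simp only [List.mem_cons, List.not_mem_nil, or_false] at hp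
      rcases hp with rfl | rfl | rfl | rfl
      · exact hE x1 s ⟨e1s, x1, x0, r1, f0, Or.inl ⟨r, u1, f3.symm⟩⟩
      · exact hE s x2 ⟨e2s.symm, s, x2, fs, r2, Or.inr (Or.inl ⟨rfl, rfl⟩)⟩
      · exact hE s x3 ⟨e3s.symm, s, x3, fs, r3, Or.inr (Or.inr (Or.inl ⟨rfl, rfl⟩))⟩
      · exact hE x2 x3 ⟨e23, x2, x3, r2, r3, Or.inr (Or.inr (Or.inr ⟨rfl, rfl⟩))⟩

end Pool.Agent.H21.G4
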