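import Pool.Agent.H21.G4.Ear
import Pool.Agent.H65.G4.Lift
import Pool.Agent.H21.G4.Cuts67

/-!
# Path contraction at the word `qqqq`, corner 0

`u` with spokes `x0` in, `x1` out, `x2` in, `x3` out, all corners quads; contracted path
`x1 → s → x0`; new arcs `s → x2`, `x3 → s`, `x3 → x2`.
-/

set_option autoImplicit false

namespace Pool.Agent.H21.G4

open Relation Pool.Agent.H13.DA Pool.Agent.H72.G4 Pool.Agent.H55.G4 Pool.Agent.H65.G4

variable {V : Type*} [DecidableEq V] {T : Finset (V × V × V)} {D : V → V → Prop} {a b c : V}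

theorem chk_qqqq : chk [(0,0,0,0),(1,0,0,0),(0,3,0,0)]
    [St.twin 0 true, St.twin 0 false, St.free 18 12] = true := by
  decide +kernel

/-- the new arcs -/
def Aqq (s x2 x3 : V) (x y : V) : Prop :=
  (x = s ∧ y = x2) ∨ (x = x3 ∧ y = s) ∨ (x = x3 ∧ y = x2)

theorem red_qqqq [Infinite V] (hM : MCw T D a b c) (hT : Ts T D a b c)
    {u x0 x1 x2 x3 s d d2 : V} (hu : ¬ Tr a b c u) (hg : Good T D u)
    (hN : ∀ y, Ar D u y ↔ y = x0 ∨ y = x1 ∨ y = x2 ∨ y = x3)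
    (a2 : D x2 u) (a3 : D u x3) (h : Qd T D u x1 s x0 d)
    (no : ¬ Tr a b c x1) (ni : ¬ Tr a b c x0)
    (n02 : ¬ Ar D x0 x2) (n03 : ¬ Ar D x0 x3) (n12 : ¬ Ar D x1 x2) (n13 : ¬ Ar D x1 x3)
    (n23 : ¬ Ar D x2 x3) (e02 : x0 ≠ x2) (e13 : x1 ≠ x3)
    (hd2 : ¬ Re D d2) (g1 : Adj T u d2) (g2 : Adj T d2 x2) (g3 : Adj T d2 x3)
    (n1 : ∀ q, Adj T x1 q → Adj T x0 q → q = u ∨ q = s ∨ q = d)
    (n2 : ∀ q, Adj T u q → Adj T s q → q = x1 ∨ q = x0 ∨ q = d)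
    (ear2 : ∀ x y z, Wq x1 s x0 d x → ¬ Wq x1 s x0 d y → y ≠ u → Wq x1 s x0 d z → D x y → ¬ D y z)
    (ear3 : ∀ x y z t, Wq x1 s x0 d x → ¬ Wq x1 s x0 d y → ¬ Wq x1 s x0 d z → y ≠ u → z ≠ u →
      Wq x1 s x0 d t → D x y → D y z → ¬ D z t)
    (far : ∀ n m, (n = x2 ∨ n = x3) → m ≠ u → ¬ Wq x1 s x0 d m → ¬ Ar D u m → Ar D n m →
      ¬ Ar D m s) :
    False := by
  obtain ⟨f1, f2, f3, f4, f5, f6, f7, f8, f9, f10⟩ := h.ne hT
  have as := hT.pl.asymm
  have htr := hT.pl.tri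
  have irr : ∀ x, ¬ D x x := fun x h => as x x h h
  have a0 : D x0 u := h.iu
  have a1 : D u x1 := h.uo
  have us : ¬ Ar D u s := by
    rintro (k | k)
    · exact htr _ _ _ k h.si h.iu
    · exact htr _ _ _ h.uo h.os k
  have m2 : Ar D u x2 := Or.inr a2
  have m3 : Ar D u x3 := Or.inl a3
  have e2s : x2 ≠ s := fun e => us (e ▸ m2)
  have e3s : x3 ≠ s := fun e => us (e ▸ m3)
  have e12 : x1 ≠ x2 := fun e => as _ _ a1 (e ▸ a2)
  have e03 : x0 ≠ x3 := fun e => as _ _ a0 (e ▸ a3)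
  have e23 : x2 ≠ x3 := fun e => as _ _ a2 (e ▸ a3)
  have u2 : x2 ≠ u := fun e => irr _ (e ▸ a2 : D x2 x2)
  have u3 : x3 ≠ u := fun e => irr _ (e ▸ a3 : D x3 x3)
  have d2' : x2 ≠ d := fun e => h.nd (e ▸ (ar_re m2).2)
  have d3' : x3 ≠ d := fun e => h.nd (e ▸ (ar_re m3).2)
  have w2 : ¬ Wq x1 s x0 d x2 := by
    rintro (k | k | k | k)
    · exact e12 k.symm
    · exact e2s k
    · exact e02 k.symm
    · exact d2' k
  have w3 : ¬ Wq x1 s x0 d x3 := by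
    rintro (k | k | k | k)
    · exact e13 k.symm
    · exact e3s k
    · exact e03 k.symm
    · exact d3' k
  have hdd : d2 ≠ d := by
    rintro rfl
    rcases (h.adj x2).1 g2 with k | k | k | k
    · exact u2 k
    · exact e12 k.symm
    · exact e2s k
    · exact e02 k.symm
  have sr : Re D s := ⟨_, Or.inl h.si⟩
  have hs : Wq x1 s x0 d s := Or.inr (Or.inl rfl)
  have fs : rp (Wq x1 s x0 d) s s = s := rp_in hs
  -- the survivors
  have surv : ∀ x, (Ar D u x ∧ x ≠ x1 ∧ x ≠ x0) → x = x2 ∨ x = x3 := by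
    rintro x ⟨k1, k2, k3⟩
    rcases (hN x).1 k1 with k | k | k | k
    · exact absurd k k3
    · exact absurd k k2
    · exact Or.inl k
    · exact Or.inr k
  classical
  obtain ⟨has, htri⟩ := ear_ok (A := Aqq s x2 x3) hT hg h n2 ear2 ear3 (by
      intro n m hn
      refine far n m ?_
      rcases hn with (⟨_, k⟩ | ⟨k, _⟩ | ⟨k, _⟩) | (⟨_, k⟩ | ⟨k, _⟩ | ⟨_, k⟩)
      · exact Or.inl k
      · exact absurd k.symm e3s
      · exact absurd k.symm e3s
      · exact absurd k.symm e2s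
      · exact Or.inr k
      · exact absurd k.symm e2s)
    (fun x => if x = x3 then 0 else if x = s then 1 else 2) (by
      rintro x y (⟨rfl, rfl⟩ | ⟨rfl, rfl⟩ | ⟨rfl, rfl⟩) <;>
        simp [e23, e2s, e3s, e3s.symm]) (by
      intro x y hx hy k
      rcases surv x hx with rfl | rfl <;> rcases surv y hy with rfl | rfl
      · exact absurd k (irr _)
      · exact absurd (Or.inl k) n23
      · exact absurd (Or.inr k) n23
      · exact absurd k (irr _)) (by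
      intro x hx k
      exfalso
      rcases surv x hx with rfl | rfl <;> rcases k with k | k
      · exact n12 (Or.inr k)
      · exact n02 (Or.inr k)
      · exact n13 (Or.inr k)
      · exact n03 (Or.inr k)) (by
      intro x hx k
      exfalso
      rcases surv x hx with rfl | rfl <;> rcases k with k | k
      · exact n12 (Or.inl k)
      · exact n02 (Or.inl k)
      · exact n13 (Or.inl k)
      · exact n03 (Or.inl k)) (by
      rintro p q (⟨rfl, rfl⟩ | ⟨rfl, rfl⟩ | ⟨rfl, rfl⟩)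
      · exact Or.inl ⟨rfl, ⟨m2, e12.symm, e02.symm⟩, n12, n02, Or.inl a2⟩
      · exact Or.inr (Or.inl ⟨rfl, ⟨m3, e13.symm, e03.symm⟩, n13, n03, Or.inl a3⟩)
      · exact Or.inr (Or.inr ⟨⟨m3, e13.symm, e03.symm⟩, ⟨m2, e12.symm, e02.symm⟩, e23.symm,
          fun k => n23 (Or.symm k), Or.inl fun k => as _ _ k.1 a3⟩))
  refine pc_fill2 (A := Aqq s x2 x3) hM hT h hu (w := s) (y1 := x1) (y2 := x0)
    (Or.inr (Or.inl ⟨rfl, Or.inl ⟨rfl, rfl⟩⟩)) no ni n1 n2 (p := x3) (p' := x2) hd2 hdd g1 g3 g2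
    (hT.pl.ar_adj m3) w3 w2 e23.symm u2 ?_ has htri ?_
  · rintro x y (⟨rfl, rfl⟩ | ⟨rfl, rfl⟩ | ⟨rfl, rfl⟩)
    · exact ⟨sr, (ar_re m2).2, f2.symm, u2, Or.inl ⟨fs, hT.pl.ar_adj m2⟩⟩
    · exact ⟨(ar_re m3).2, sr, u3, f2.symm, Or.inr (Or.inl ⟨fs, hT.pl.ar_adj m3⟩)⟩
    · exact ⟨(ar_re m3).2, (ar_re m2).2, u3, u2, Or.inr (Or.inr (Or.inl ⟨rfl, rfl⟩))⟩
  · intro O hO hE
    have r2 : rp (Wq x1 s x0 d) s x2 = x2 := rp_out w2
    have r3 : rp (Wq x1 s x0 d) s x3 = x3 := rp_out w3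
    refine pc_lift hT h chk_qqqq (by norm_num) (n := nm6 s x2 x3 x1 x0 u)
      (nm6_inj e2s.symm e3s.symm f5.symm f8 f2.symm e23 e12.symm e02.symm u2 e13.symm
        e03.symm u3 f6 f1.symm f3.symm) rfl rfl rfl rfl ?_ ?_ hO hE
        (pre_of (E := [(0,1),(2,0),(2,1)]) (F := []) ?_ (by simp) _ 0 (by decide))
    · intro x hx
      rcases (hN x).1 (Or.inr hx) with rfl | rfl | rfl | rfl
      · exact ⟨4, by norm_num, rfl, by decide⟩
      · exact absurd hx (as _ _ a1)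
      · exact ⟨1, by norm_num, rfl, by decide⟩
      · exact absurd hx (as _ _ a3)
    · intro x hx
      rcases (hN x).1 (Or.inl hx) with rfl | rfl | rfl | rfl
      · exact absurd hx (as _ _ a0)
      · exact ⟨3, by norm_num, rfl, by decide⟩
      · exact absurd hx (as _ _ a2)
      · exact ⟨2, by norm_num, rfl, by decide⟩
    · intro p hp
      simp only [List.mem_cons, List.not_mem_nil, or_false] at hp
      rcases hp with rfl | rfl | rfl
      · exact hE s x2 ⟨e2s.symm, s, x2, fs, r2, Or.inr (Or.inl ⟨rfl, rfl⟩)⟩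
      · exact hE x3 s ⟨e3s, x3, s, r3, fs, Or.inr (Or.inr (Or.inl ⟨rfl, rfl⟩))⟩
      · exact hE x3 x2 ⟨e23.symm, x3, x2, r3, r2, Or.inr (Or.inr (Or.inr ⟨rfl, rfl⟩))⟩

end Pool.Agent.H21.G4
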