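import Pool.Agent.H21.G4.Glue
import Pool.Agent.H72.G4.Struct

/-!
# O2 and O3 with the definitions of `H72/G4/Struct.lean`, twins with a free side choice

* `twin` : put `y` next to `b` in all three orders, `b` below `y` exactly in the orders `i` with `c i`.
* `solv_ren` : (O3) contraction, `Ren D y x` is `D` with `y` renamed to `x`.
* `solv_ren_tr` : the same for the outer triangle.
* `solv_del` : (O2) an outer source or sink.
-/

set_option autoImplicit false

namespace Pool.Agent.H21.G4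

open Pool.Agent.H72.G4

/-- put `y` next to `b` in all three orders, `b` below `y` exactly in the orders `i` with `c i` -/
theorem twin {V : Type*} {O : Fin 3 → V → V → Prop} (hO : ∀ i, STO (O i)) {y b : V}
    (hyb : y ≠ b) (c : Fin 3 → Prop) :
    ∃ O' : Fin 3 → V → V → Prop, (∀ i, STO (O' i)) ∧
      (∀ i u w, u ≠ y → w ≠ y → (O' i u w ↔ O i u w)) ∧
      (∀ i z, z ≠ y → z ≠ b → (O' i z y ↔ O i z b) ∧ (O' i y z ↔ O i b z)) ∧
      ∀ i, (O' i b y ↔ c i) ∧ (O' i y b ↔ ¬ c i) := by
  obtain ⟨O', h1, h2, h3⟩ := insert3 hO y (fun i x => O i x b ∨ (x = b ∧ c i)) (by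
    rintro i x z _ _ (h1 | ⟨rfl, _⟩) h3
    · exact Or.inl ((hO i).tr _ _ _ h3 h1)
    · exact Or.inl h3)
  refine ⟨O', h1, h2, ?_, ?_⟩
  · intro i z hz hzb
    obtain ⟨k1, k2⟩ := h3 i z hz
    have k3 : (O i z b ∨ (z = b ∧ c i)) ↔ O i z b := by
      constructor
      · rintro (k | ⟨k, _⟩)
        · exact k
        · exact absurd k hzb
      · exact Or.inl
    rw [k3] at k1 k2
    exact ⟨k1, k2.trans ((hO i).not hzb)⟩
  · intro i
    obtain ⟨k1, k2⟩ := h3 i b hyb.symm
    have k3 : (O i b b ∨ (b = b ∧ c i)) ↔ c i := by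
      constructor
      · rintro (k | ⟨_, k⟩)
        · exact absurd k ((hO i).irr b)
        · exact k
      · exact fun k => Or.inr ⟨rfl, k⟩
    rw [k3] at k1 k2
    exact ⟨k1, k2⟩

/-- **O3** contraction -/
theorem solv_ren {V : Type*} {D : V → V → Prop} (x y : V) (S : V → Prop) (hy : ¬ S y)
    (hxy : x ≠ y) (has : ∀ u w, D u w → ¬ D w u)
    (hS : ∀ z, S x → S z → z ≠ x → (D y z → D x z) ∧ (D z y → D z x))
    (h : Solv (Ren D y x) S) : Solv D S :=
  solv_contract (b := x) (fun e => hxy e.symm) hy has hS h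

/-- **O3** for the outer triangle -/
theorem solv_ren_tr {V : Type*} {D : V → V → Prop} {a b c : V} (x y : V) (hy : ¬ Tr a b c y)
    (hxy : x ≠ y) (has : ∀ u w, D u w → ¬ D w u)
    (has' : ∀ u w, Ren D y x u w → ¬ Ren D y x w u) (hout : Out D a b c)
    (h : Solv (Ren D y x) (Tr a b c)) : Solv D (Tr a b c) := by
  refine solv_ren x y _ hy hxy has ?_ h
  intro z hx hz hzx
  have hzy : z ≠ y := by
    rintro rfl
    exact hy hz
  have hA : Ar D x z := by
    obtain ⟨h1, h2, h3⟩ := hout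
    rcases hx with rfl | rfl | rfl <;> rcases hz with rfl | rfl | rfl
    · exact absurd rfl hzx
    · exact h1
    · exact Or.symm h3
    · exact Or.symm h1
    · exact absurd rfl hzx
    · exact h2
    · exact h3
    · exact Or.symm h2
    · exact absurd rfl hzx
  constructor
  · intro k
    rcases hA with h1 | h1
    · exact h1
    · exact absurd (⟨hzy, hxy, hzx, Or.inl h1⟩ : Ren D y x z x)
        (has' x z ⟨hxy, hzy, fun e => hzx e.symm, Or.inr (Or.inl ⟨rfl, k⟩)⟩)
  · intro k
    rcases hA with h1 | h1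
    · exact absurd (⟨hxy, hzy, fun e => hzx e.symm, Or.inl h1⟩ : Ren D y x x z)
        (has' z x ⟨hzy, hxy, hzx, Or.inr (Or.inr ⟨rfl, k⟩)⟩)
    · exact h1

/-- **O2** a source or a sink outside `S` -/
theorem solv_del {V : Type*} {D : V → V → Prop} {S : V → Prop} {v : V} (hS : ¬ S v)
    (hv : (∀ x, ¬ D x v) ∨ ∀ x, ¬ D v x) (h : Solv (H72.G4.Del D v) S) : Solv D S := by
  have e : H72.G4.Del D v = G4.Del D v := by
    funext x y
    apply propext
    constructor
    · rintro ⟨h1, h2, h3⟩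
      exact ⟨h3, h1, h2⟩
    · rintro ⟨h3, h1, h2⟩
      exact ⟨h1, h2, h3⟩
  rw [e] at h
  rcases hv with hv | hv
  · exact solv_source hS hv h
  · exact solv_sink hS hv h

end Pool.Agent.H21.G4
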